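import Mathlib

section

set_option autoImplicit false
set_option linter.unusedSectionVars false
set_option linter.unusedVariables false

/-!
Combinatorial core: a minimal zero-sum family with property `PropP` of length at least four is constant.
-/

namespace Pool.Agent.Lib.MP_057dff_co

open Finset

variable {G : Type*} [AddCommGroup G] {ι : Type*} [Fintype ι] [DecidableEq ι]

/-- A minimal zero-sum family. -/
def AtomFam (g : ι → G) : Prop :=
  (∑ i, g i = 0) ∧ ∀ I : Finset ι, I.Nonempty → ∑ i ∈ I, g i = 0 → I = univ

/-- For each proper nonempty `S`, every element is a subset sum over `S` or minus one over the complement. -/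
def PropP (g : ι → G) : Prop :=
  ∀ S : Finset ι, S.Nonempty → S ≠ univ → ∀ x : G,
    (∃ I : Finset ι, I ⊆ S ∧ ∑ i ∈ I, g i = x) ∨
    (∃ J : Finset ι, Disjoint J S ∧ ∑ i ∈ J, g i = -x)

variable {g : ι → G}

/-- A set with zero sum missing some index is empty. -/
lemma AtomFam.empty_of_notMem (h : AtomFam g) {I : Finset ι} (hI : ∑ i ∈ I, g i = 0)
    {j : ι} (hj : j ∉ I) : I = ∅ := by
  by_contra hne
  have := h.2 I (Finset.nonempty_iff_ne_empty.mpr hne) hI
  rw [this] at hj
  exact hj (mem_univ j)

/-- No nonempty set missing an index has zero sum. -/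
lemma AtomFam.sum_ne (h : AtomFam g) {I : Finset ι} {i j : ι} (hi : i ∈ I) (hj : j ∉ I) :
    ∑ i ∈ I, g i ≠ 0 := by
  intro hI
  have := h.empty_of_notMem hI hj
  rw [this] at hi
  simp at hi

lemma AtomFam.ne_zero (h : AtomFam g) {i j : ι} (hij : i ≠ j) : g i ≠ 0 := by
  intro h0
  refine h.sum_ne (I := {i}) (i := i) (j := j) (by simp) (by simp [hij.symm]) ?_
  simpa using h0

/-- If `σ(I) = - g i` and `i ∉ I`, some index `j ≠ i` is missing: contradiction. -/
lemma AtomFam.no_neg (h : AtomFam g) {I : Finset ι} {i j : ι} (hi : i ∉ I) (hj : j ∉ I)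
    (hij : j ≠ i) (hs : ∑ l ∈ I, g l = - g i) : False := by
  refine h.sum_ne (I := insert i I) (i := i) (j := j) (by simp) (by simp [hj, hij]) ?_
  rw [sum_insert hi, hs]; abel

lemma sum_erase_eq {I : Finset ι} {i : ι} (hi : i ∈ I) :
    ∑ l ∈ I.erase i, g l = ∑ l ∈ I, g l - g i := by
  rw [← add_sum_erase I g hi]; abel

/-- L1. -/
lemma ne_double (h : AtomFam g) (hP : PropP g) {i j : ι} (hij : i ≠ j) : g i ≠ g j + g j := by
  intro hd
  have hne : (univ.erase i).Nonempty := ⟨j, by simp [hij.symm]⟩
  have hne' : (univ.erase i : Finset ι) ≠ univ := by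
    intro hh
    have := mem_univ i
    rw [← hh] at this
    simp at this
  rcases hP _ hne hne' (- g j) with ⟨I, hI, hs⟩ | ⟨J, hJ, hs⟩
  · have hiI : i ∉ I := fun hh => by simpa using hI hh
    by_cases hj : j ∈ I
    · refine h.no_neg (I := I.erase j) (i := i) (j := j) ?_ (by simp) hij.symm ?_
      · simp [hiI]
      · rw [sum_erase_eq hj, hs, hd]; abel
    · exact h.no_neg hj hiI hij hs
  · have hJ' : J ⊆ {i} := by
      intro x hx
      by_contra hxi
      have : x ∈ univ.erase i := by simpa using hxi
      exact (Finset.disjoint_left.mp hJ) hx this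
    rcases Finset.subset_singleton_iff.mp hJ' with h1 | h1
    · rw [h1, sum_empty, neg_neg] at hs
      exact h.ne_zero hij.symm hs.symm
    · rw [h1] at hs
      simp at hs
      rw [hd] at hs
      have : g j = 0 := by
        have := congrArg (fun t => t - g j) hs
        simpa using this
      exact h.ne_zero hij.symm this

/-- Sum over the complement. -/
lemma sum_compl' (h : AtomFam g) (I : Finset ι) : ∑ l ∈ Iᶜ, g l = - ∑ l ∈ I, g l := by
  have := Finset.sum_add_sum_compl I g
  rw [h.1] at this
  exact eq_neg_of_add_eq_zero_right this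

lemma subset_pair {J : Finset ι} {i j : ι} (hJ : J ⊆ {i, j}) :
    J = ∅ ∨ J = {i} ∨ J = {j} ∨ J = {i, j} := by
  by_cases hi : i ∈ J
  · by_cases hj : j ∈ J
    · right; right; right
      apply subset_antisymm hJ
      intro x hx
      simp at hx
      rcases hx with rfl | rfl <;> assumption
    · right; left
      apply subset_antisymm
      · intro x hx
        have := hJ hx
        simp at this
        rcases this with rfl | rfl
        · simp
        · exact absurd hx hj
      · simpa using hi
  · by_cases hj : j ∈ J
    · right; right; left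
      apply subset_antisymm
      · intro x hx
        have := hJ hx
        simp at this
        rcases this with rfl | rfl
        · exact absurd hx hi
        · simp
      · simpa using hj
    · left
      apply subset_antisymm
      · intro x hx
        have := hJ hx
        simp at this
        rcases this with rfl | rfl
        · exact absurd hx hi
        · exact absurd hx hj
      · simp

/-- L2. -/
lemma exists_pair (h : AtomFam g) (hP : PropP g) {i j k : ι} (hij : i ≠ j) (hki : g k ≠ g i)
    (hkj : g k ≠ g j) : ∃ K : Finset ι, i ∈ K ∧ j ∈ K ∧ k ∉ K ∧ ∑ l ∈ K, g l = g k := by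
  have hki' : k ≠ i := fun hh => hki (by rw [hh])
  have hkj' : k ≠ j := fun hh => hkj (by rw [hh])
  have main : ∃ K : Finset ι, i ∈ K ∧ j ∈ K ∧ ∑ l ∈ K, g l = g k := by
    have hne : (({i, j} : Finset ι)ᶜ).Nonempty := ⟨k, by simp [hki', hkj']⟩
    have hne' : (({i, j} : Finset ι)ᶜ) ≠ univ := by
      intro hh
      have := mem_univ i
      rw [← hh] at this
      simp at this
    rcases hP _ hne hne' (- g k) with ⟨I, hI, hs⟩ | ⟨J, hJ, hs⟩
    · refine ⟨Iᶜ, ?_, ?_, ?_⟩
      · rw [mem_compl]; intro hh; simpa using hI hh
      · rw [mem_compl]; intro hh; simpa using hI hh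
      · rw [sum_compl' h, hs]; simp
    · have hJ' : J ⊆ {i, j} := by
        intro x hx
        by_contra hxi
        have : x ∈ (({i, j} : Finset ι)ᶜ) := by rw [mem_compl]; exact hxi
        exact (Finset.disjoint_left.mp hJ) hx this
      rw [neg_neg] at hs
      rcases subset_pair hJ' with h1 | h1 | h1 | h1
      · rw [h1] at hs
        simp at hs
        exact absurd hs.symm (h.ne_zero hki')
      · rw [h1] at hs; simp at hs; exact absurd hs.symm hki
      · rw [h1] at hs; simp at hs; exact absurd hs.symm hkj
      · exact ⟨J, by simp [h1], by simp [h1], hs⟩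
  obtain ⟨K, hi, hj, hs⟩ := main
  refine ⟨K, hi, hj, ?_, hs⟩
  intro hk
  refine h.sum_ne (I := K.erase k) (i := i) (j := k) (by simp [hi, hki'.symm]) (by simp) ?_
  rw [sum_erase_eq hk, hs]; abel

/-- L3. -/
lemma no_mid (h : AtomFam g) (hP : PropP g) {i j k : ι} (hij : i ≠ j) (hki : g k ≠ g i)
    (hkj : g k ≠ g j) : g i + g j ≠ g k + g k := by
  intro hd
  obtain ⟨K, hi, hj, hk, hs⟩ := exists_pair h hP hij hki hkj
  have hki' : k ≠ i := fun hh => hki (by rw [hh])
  refine h.no_neg (I := (K.erase i).erase j) (i := k) (j := i) (by simp [hk]) (by simp) hki'.symm ?_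
  rw [sum_erase_eq (by simp [hj, hij.symm]), sum_erase_eq hi, hs]
  have : g k - g i - g j = g k - (g i + g j) := by abel
  rw [this, hd]; abel

/-- L4. -/
lemma tripod (h : AtomFam g) (hP : PropP g) {K : Finset ι} {k i j : ι} (hk : k ∉ K)
    (hs : ∑ l ∈ K, g l = g k) (hi : i ∈ K) (hj : j ∈ K) (hij : i ≠ j) {X : Finset ι}
    (hX : X ⊆ K) (hXs : ∑ l ∈ X, g l = g i - g j) : X = K := by
  have hki : k ≠ i := fun hh => hk (hh ▸ hi)
  have hkj : k ≠ j := fun hh => hk (hh ▸ hj)
  set T : Finset ι := insert k ((K.erase i).erase j) with hT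
  have hiT : i ∉ T := by simp [hT, hki.symm]
  have hjT : j ∉ T := by simp [hT, hkj.symm]
  have hkT : k ∈ T := by simp [hT]
  have hne : (Tᶜ).Nonempty := ⟨i, by rw [mem_compl]; exact hiT⟩
  have hne' : (Tᶜ) ≠ univ := by
    intro hh
    have := mem_univ k
    rw [← hh, mem_compl] at this
    exact this hkT
  rcases hP _ hne hne' (g i - g k) with ⟨I, hI, hIs⟩ | ⟨J, hJ, hJs⟩
  · have hkI : k ∉ I := fun hh => by
      have := hI hh
      rw [mem_compl] at this
      exact this hkT
    have hiI : i ∉ I := by
      intro hh
      refine h.no_neg (I := I.erase i) (i := k) (j := i) (by simp [hkI]) (by simp) hki.symm ?_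
      rw [sum_erase_eq hh, hIs]; abel
    have hIK : ∀ x ∈ I, x ∈ K → x = j := by
      intro x hx hxK
      by_contra hxj
      have hxi : x ≠ i := fun hh => hiI (hh ▸ hx)
      have := hI hx
      rw [mem_compl] at this
      apply this
      simp [hT, hxj, hxi, hxK]
    have hjI : j ∈ I := by
      by_contra hjI
      have hd : Disjoint I (K.erase i) := by
        rw [Finset.disjoint_left]
        intro x hx hx2
        have h2 := hIK x hx (mem_of_mem_erase hx2)
        exact hjI (h2 ▸ hx)
      refine h.sum_ne (I := I ∪ K.erase i) (i := j) (j := k) (by simp [hj, hij.symm])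
        (by simp [hkI, hk]) ?_
      rw [sum_union hd, hIs, sum_erase_eq hi, hs]; abel
    set L := I.erase j with hL
    have hLs : ∑ l ∈ L, g l = g i - g k - g j := by rw [hL, sum_erase_eq hjI, hIs]
    have hd : Disjoint (K \ X) L := by
      rw [Finset.disjoint_left]
      intro x hx hxL
      rw [hL] at hxL
      have h1 : x ∈ K := (mem_sdiff.mp hx).1
      have h2 := hIK x (mem_of_mem_erase hxL) h1
      exact (ne_of_mem_erase hxL) h2
    have hsum : ∑ l ∈ (K \ X) ∪ L, g l = 0 := by
      rw [sum_union hd, hLs]
      have h3 := sum_sdiff (f := g) hX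
      rw [hXs, hs] at h3
      have h4 : ∑ l ∈ K \ X, g l = g k - (g i - g j) := by
        rw [← h3]; abel
      rw [h4]; abel
    have hemp := h.empty_of_notMem hsum (j := k) (by simp [hL, hk, hkI])
    have : K \ X = ∅ := by
      apply subset_antisymm _ (empty_subset _)
      rw [← hemp]
      exact subset_union_left
    exact subset_antisymm hX (sdiff_eq_empty_iff_subset.mp this)
  · exfalso
    have hJT : J ⊆ T := by
      intro x hx
      by_contra hxT
      exact (Finset.disjoint_left.mp hJ) hx (by rw [mem_compl]; exact hxT)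
    have hiJ : i ∉ J := fun hh => hiT (hJT hh)
    have hjJ : j ∉ J := fun hh => hjT (hJT hh)
    by_cases hkJ : k ∈ J
    · refine h.no_neg (I := J.erase k) (i := i) (j := k) (by simp [hiJ]) (by simp) hki ?_
      rw [sum_erase_eq hkJ, hJs]; abel
    · -- `J ⊆ K \ {i,j}`
      have hJK : J ⊆ K := by
        intro x hx
        have := hJT hx
        rw [hT, mem_insert] at this
        rcases this with rfl | h2
        · exact absurd hx hkJ
        · exact mem_of_mem_erase (mem_of_mem_erase h2)
      have hins : insert i J ⊆ K := by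
        intro x hx
        rw [mem_insert] at hx
        rcases hx with rfl | hx
        · exact hi
        · exact hJK hx
      refine h.sum_ne (I := K \ insert i J) (i := j) (j := k) ?_ (by simp [hk]) ?_
      · simp [hj, hij.symm, hjJ]
      · have h3 := sum_sdiff (f := g) hins
        rw [sum_insert hiJ, hJs, hs] at h3
        have h5 : g i + -(g i - g k) = g k := by abel
        rw [h5] at h3
        exact add_eq_right.mp h3

/-- L5. -/
lemma injective_of_ne (h : AtomFam g) (hP : PropP g) {p q : ι} (hpq : g p ≠ g q) :
    Function.Injective g := by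
  intro i j hij
  by_contra hne
  obtain ⟨k, hk⟩ : ∃ k, g k ≠ g i := by
    by_contra hcon
    push Not at hcon
    exact hpq ((hcon p).trans (hcon q).symm)
  obtain ⟨K, hi, hj, hkK, hs⟩ := exists_pair h hP hne hk (hij ▸ hk)
  have := tripod h hP hkK hs hi hj hne (X := ∅) (empty_subset _) (by simp [hij])
  rw [← this] at hi
  simp at hi

/-- L6. -/
lemma relation_spans (h : AtomFam g) (hP : PropP g) {W : Finset ι} {c a : ι} (hc : c ∉ W)
    (hs : ∑ l ∈ W, g l = g c) (hW : W.Nonempty) (ha : a ∉ insert c W) :
    ∃ X : Finset ι, X ⊆ insert c W ∧ ∑ l ∈ X, g l = g a := by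
  have hac : a ≠ c := fun hh => ha (by simp [hh])
  have haW : a ∉ W := fun hh => ha (by simp [hh])
  have hne : (insert c W).Nonempty := ⟨c, by simp⟩
  have hne' : (insert c W) ≠ univ := by
    intro hh
    exact ha (hh ▸ mem_univ a)
  rcases hP _ hne hne' (g a) with ⟨I, hI, hIs⟩ | ⟨J, hJ, hJs⟩
  · exact ⟨I, hI, hIs⟩
  · exfalso
    have hcJ : c ∉ J := fun hh => (Finset.disjoint_left.mp hJ) hh (by simp)
    obtain ⟨j, hj⟩ := hW
    have hjJ : j ∉ J := fun hh => (Finset.disjoint_left.mp hJ) hh (by simp [hj])
    have haJ : a ∈ J := by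
      by_contra haJ
      exact h.no_neg haJ hcJ hac.symm hJs
    have hcj : c ≠ j := fun hh => hc (hh ▸ hj)
    have hsub : W.erase j ⊆ Jᶜ := by
      intro x hx
      rw [mem_compl]
      intro hxJ
      exact (Finset.disjoint_left.mp hJ) hxJ (by simp [mem_of_mem_erase hx])
    have := tripod h hP (K := Jᶜ) (k := a) (i := c) (j := j) (by simp [haJ])
      (by rw [sum_compl' h, hJs]; simp) (by simpa using hcJ) (by simpa using hjJ) hcj
      (X := W.erase j) hsub (by rw [sum_erase_eq hj, hs])
    have hcJ' : c ∈ Jᶜ := by simpa using hcJ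
    rw [← this] at hcJ'
    exact hc (mem_of_mem_erase hcJ')

/-- If `2 g_c = 0` then there are at most two other indices. -/
lemma order_two (h : AtomFam g) (hP : PropP g) (hinj : Function.Injective g) {c i j : ι}
    (hc : g c + g c = 0) (hic : i ≠ c) (hjc : j ≠ c) (hij : i ≠ j) : g i - g j = g c := by
  by_contra hne0
  have hne : (({i, j} : Finset ι)ᶜ).Nonempty := ⟨c, by simp [hic.symm, hjc.symm]⟩
  have hne' : (({i, j} : Finset ι)ᶜ) ≠ univ := by
    intro hh
    have := mem_univ i
    rw [← hh] at this
    simp at this
  rcases hP _ hne hne' (g c - g i) with ⟨I, hI, hs⟩ | ⟨J, hJ, hs⟩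
  · have hiI : i ∉ I := fun hh => by simpa using hI hh
    have hjI : j ∉ I := fun hh => by simpa using hI hh
    by_cases hcI : c ∈ I
    · refine h.no_neg (I := I.erase c) (i := i) (j := c) (by simp [hiI]) (by simp) hic.symm ?_
      rw [sum_erase_eq hcI, hs]; abel
    · refine h.no_neg (I := insert c I) (i := i) (j := j) (by simp [hiI, hic]) (by simp [hjI, hjc])
        hij.symm ?_
      rw [sum_insert hcI, hs]
      have : g c + (g c - g i) = (g c + g c) - g i := by abel
      rw [this, hc]; simp
  · have hJ' : J ⊆ {i, j} := by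
      intro x hx
      by_contra hxi
      have : x ∈ (({i, j} : Finset ι)ᶜ) := by rw [mem_compl]; exact hxi
      exact (Finset.disjoint_left.mp hJ) hx this
    rw [neg_sub] at hs
    rcases subset_pair hJ' with h1 | h1 | h1 | h1
    · rw [h1] at hs
      simp at hs
      exact hic (hinj (sub_eq_zero.mp hs.symm))
    · rw [h1, sum_singleton] at hs
      have h5 : g c = 0 := by
        have : g c = g i - (g i - g c) := by abel
        rw [this, ← hs]; abel
      exact h.ne_zero hic.symm h5
    · rw [h1, sum_singleton] at hs
      apply hne0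
      rw [hs]; abel
    · rw [h1, sum_pair hij] at hs
      refine h.no_neg (I := {j}) (i := c) (j := i) (by simp [hjc.symm]) (by simp [hij]) hic ?_
      simp
      have := congrArg (fun t => t - g i) hs
      simp at this
      exact this

/-- Theorem A. -/
theorem const_of_propP (h : AtomFam g) (hP : PropP g) (hcard : 4 ≤ Fintype.card ι) (p q : ι) :
    g p = g q := by
  by_contra hpq
  have hinj := injective_of_ne h hP hpq
  -- existence of a relation
  let Q : ℕ → Prop := fun n => ∃ (c : ι) (W : Finset ι), c ∉ W ∧ ∑ l ∈ W, g l = g c ∧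
    2 ≤ W.card ∧ W.card = n
  have hex : ∃ n, Q n := by
    obtain ⟨k, hk⟩ : ∃ k, k ∉ ({p, q} : Finset ι) := by
      by_contra hcon
      push Not at hcon
      have h1 : (univ : Finset ι) ⊆ {p, q} := fun x _ => hcon x
      have h2 := card_le_card h1
      rw [card_univ] at h2
      have h3 : ({p, q} : Finset ι).card ≤ 2 := card_le_two
      omega
    simp at hk
    have hpq' : p ≠ q := fun hh => hpq (by rw [hh])
    obtain ⟨K, hi, hj, hkK, hs⟩ := exists_pair h hP (k := k) hpq' (fun hh => hk.1 (hinj hh))
      (fun hh => hk.2 (hinj hh))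
    refine ⟨K.card, k, K, hkK, hs, ?_, rfl⟩
    have : ({p, q} : Finset ι) ⊆ K := by
      intro x hx
      simp at hx
      rcases hx with rfl | rfl <;> assumption
    calc 2 = ({p, q} : Finset ι).card := (card_pair hpq').symm
      _ ≤ K.card := card_le_card this
  classical
  obtain ⟨c, W, hcW, hs, hW2, hWn⟩ := Nat.find_spec hex
  have hmin : ∀ (c' : ι) (W' : Finset ι), c' ∉ W' → ∑ l ∈ W', g l = g c' → 2 ≤ W'.card →
      W.card ≤ W'.card := by
    intro c' W' h1 h2 h3
    rw [hWn]
    exact Nat.find_min' hex ⟨c', W', h1, h2, h3, rfl⟩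
  have hWne : W.Nonempty := card_pos.mp (by omega)
  have huniv : insert c W = univ := by
    by_contra hnu
    obtain ⟨a, ha⟩ : ∃ a, a ∉ insert c W := by
      by_contra hcon
      push Not at hcon
      exact hnu (eq_univ_of_forall hcon)
    obtain ⟨X, hX, hXs⟩ := relation_spans h hP hcW hs hWne ha
    have hac : a ≠ c := fun hh => ha (by simp [hh])
    have haW : a ∉ W := fun hh => ha (by simp [hh])
    have haX : a ∉ X := fun hh => ha (hX hh)
    have hX2 : 2 ≤ X.card := by
      by_contra hlt
      push Not at hlt
      have h01 : X.card = 0 ∨ X.card = 1 := by omega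
      rcases h01 with h0 | h1
      · rw [card_eq_zero] at h0
        rw [h0] at hXs
        simp at hXs
        exact h.ne_zero hac hXs.symm
      · obtain ⟨y, hy⟩ := card_eq_one.mp h1
        rw [hy] at hXs
        simp at hXs
        have := hinj hXs
        rw [hy] at haX
        simp at haX
        exact haX this.symm
    have hXW := hmin a X haX hXs hX2
    by_cases hcX : c ∈ X
    · -- `X = insert c X'`
      have hX' : X.erase c ⊆ W := by
        intro x hx
        have := hX (mem_of_mem_erase hx)
        rw [mem_insert] at this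
        rcases this with h1 | h1
        · exact absurd h1 (ne_of_mem_erase hx)
        · exact h1
      have hcard' : (X.erase c).card + 1 = X.card := card_erase_add_one hcX
      have hsX' : ∑ l ∈ X.erase c, g l = g a - g c := by rw [sum_erase_eq hcX, hXs]
      have hcd : (W \ X.erase c).card ≤ 1 := by
        rw [card_sdiff_of_subset hX']
        omega
      have h3 := sum_sdiff (f := g) hX'
      rw [hsX', hs] at h3
      rcases Nat.le_one_iff_eq_zero_or_eq_one.mp hcd with h0 | h1
      · rw [card_eq_zero] at h0
        rw [h0, sum_empty, zero_add] at h3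
        refine ne_double h hP hac ?_
        rw [← sub_eq_iff_eq_add]; exact h3
      · obtain ⟨y, hy⟩ := card_eq_one.mp h1
        have hyW : y ∈ W := by
          have : y ∈ W \ X.erase c := by rw [hy]; simp
          exact (mem_sdiff.mp this).1
        rw [hy, sum_singleton] at h3
        have hay : a ≠ y := fun hh => haW (hh ▸ hyW)
        have hcy : c ≠ y := fun hh => hcW (hh ▸ hyW)
        refine no_mid h hP (i := a) (j := y) (k := c) hay (fun hh => hac (hinj hh).symm)
          (fun hh => hcy (hinj hh)) ?_
        have : g a + g y = (g y + (g a - g c)) + g c := by abel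
        rw [this, h3]
    · have hX' : X ⊆ W := by
        intro x hx
        have := hX hx
        rw [mem_insert] at this
        rcases this with h1 | h1
        · exact absurd (h1 ▸ hx) hcX
        · exact h1
      have hXW' : X = W := eq_of_subset_of_card_le hX' hXW
      rw [hXW', hs] at hXs
      exact hac (hinj hXs.symm)
  have hc2 : g c + g c = 0 := by
    have := h.1
    rw [← huniv, sum_insert hcW, hs] at this
    exact this
  have hWcard : 3 ≤ W.card := by
    have h1 : (insert c W).card = Fintype.card ι := by rw [huniv, card_univ]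
    rw [card_insert_of_notMem hcW] at h1
    omega
  obtain ⟨i, j, k, hi, hj, hk, hij, hik, hjk⟩ : ∃ i j k, i ∈ W ∧ j ∈ W ∧ k ∈ W ∧ i ≠ j ∧ i ≠ k ∧ j ≠ k := by
    obtain ⟨i, h1, j, h2, k, h3, h4, h5, h6⟩ := two_lt_card.mp (by omega : 2 < W.card)
    exact ⟨i, j, k, h1, h2, h3, h4, h5, h6⟩
  have hic : i ≠ c := fun hh => hcW (hh ▸ hi)
  have hjc : j ≠ c := fun hh => hcW (hh ▸ hj)
  have hkc : k ≠ c := fun hh => hcW (hh ▸ hk)
  have e1 := order_two h hP hinj hc2 hic hjc hij
  have e2 := order_two h hP hinj hc2 hjc hkc hjk
  have e3 := order_two h hP hinj hc2 hic hkc hik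
  have : g i - g k = (g i - g j) + (g j - g k) := by abel
  rw [this, e1, e2, hc2] at e3
  exact h.ne_zero hic.symm e3.symm

end Pool.Agent.Lib.MP_057dff_co
end

section

set_option autoImplicit false
set_option linter.unusedSectionVars false
set_option linter.unusedVariables false

/-! Structure of long zero-sum free sequences (multisets) in abelian groups: if `S` is zero-sum free
and has at most `2 |S| - 1` subset sums (the empty one included), then `S` consists of positive
multiples `a_i g` of one element `g`, with `∑ a_i` less than the order of `g`. -/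

namespace Pool.Agent.Lib.MP_057dff_co

open Finset

section
variable {G : Type*} [AddCommGroup G] [DecidableEq G]

/-- The set of all subset sums (with the empty one). -/
def SS (S : Multiset G) : Finset G := (S.powerset.map Multiset.sum).toFinset

/-- Zero-sum free. -/
def ZSF (S : Multiset G) : Prop := ∀ T ≤ S, T ≠ 0 → T.sum ≠ 0

lemma mem_SS {S : Multiset G} {x : G} : x ∈ SS S ↔ ∃ T ≤ S, T.sum = x := by
  simp [SS]

lemma zero_mem_SS (S : Multiset G) : (0 : G) ∈ SS S := mem_SS.mpr ⟨0, Multiset.zero_le _, by simp⟩

lemma SS_cons (x : G) (S : Multiset G) : SS (x ::ₘ S) = SS S ∪ (SS S).image (fun y => x + y) := by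
  ext y
  simp only [mem_union, mem_image, mem_SS]
  constructor
  · rintro ⟨T, hT, rfl⟩
    by_cases hx : x ∈ T
    · obtain ⟨T', rfl⟩ := Multiset.exists_cons_of_mem hx
      rw [Multiset.cons_le_cons_iff] at hT
      right
      exact ⟨T'.sum, ⟨T', hT, rfl⟩, by simp⟩
    · left
      rw [Multiset.le_cons_of_notMem hx] at hT
      exact ⟨T, hT, rfl⟩
  · rintro (⟨T, hT, rfl⟩ | ⟨_, ⟨T, hT, rfl⟩, rfl⟩)
    · exact ⟨T, hT.trans (Multiset.le_cons_self _ _), rfl⟩
    · exact ⟨x ::ₘ T, Multiset.cons_le_cons _ hT, by simp⟩

lemma SS_mono {S T : Multiset G} (h : S ≤ T) : SS S ⊆ SS T := by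
  intro y hy
  obtain ⟨R, hR, rfl⟩ := mem_SS.mp hy
  exact mem_SS.mpr ⟨R, hR.trans h, rfl⟩

lemma sum_sub_of_le {S T : Multiset G} (h : T ≤ S) : (S - T).sum = S.sum - T.sum := by
  obtain ⟨R, rfl⟩ := Multiset.le_iff_exists_add.mp h
  simp

lemma SS_symm' {S : Multiset G} {b : G} (h : b ∈ SS S) : S.sum - b ∈ SS S := by
  obtain ⟨R, hR, rfl⟩ := mem_SS.mp h
  exact mem_SS.mpr ⟨S - R, tsub_le_self, sum_sub_of_le hR⟩

lemma SS_symm {S : Multiset G} {b : G} : S.sum - b ∈ SS S ↔ b ∈ SS S := by
  constructor
  · intro h
    have := SS_symm' h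
    simpa using this
  · exact SS_symm'

lemma ZSF.mono {S T : Multiset G} (h : ZSF S) (hT : T ≤ S) : ZSF T :=
  fun R hR h0 => h R (hR.trans hT) h0

lemma ZSF.sum_notMem {S : Multiset G} (h : ZSF S) {x : G} (hx : x ∈ S) :
    S.sum ∉ SS (S.erase x) := by
  intro hm
  obtain ⟨T, hT, hs⟩ := mem_SS.mp hm
  have hT' : T ≤ S := hT.trans (Multiset.erase_le _ _)
  have h1 : (S - T).sum = 0 := by rw [sum_sub_of_le hT', hs]; simp
  have h2 : S - T ≠ 0 := by
    intro h0
    have := Multiset.card_le_card hT
    have h3 : S ≤ T := by rwa [tsub_eq_zero_iff_le] at h0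
    have h4 := Multiset.card_le_card h3
    have h5 := Multiset.card_erase_lt_of_mem hx
    omega
  exact h _ tsub_le_self h2 h1

lemma SS_erase_subset {S : Multiset G} (h : ZSF S) {x : G} (hx : x ∈ S) :
    SS (S.erase x) ⊆ (SS S).erase S.sum := by
  intro y hy
  rw [mem_erase]
  refine ⟨?_, SS_mono (Multiset.erase_le _ _) hy⟩
  rintro rfl
  exact h.sum_notMem hx hy

lemma sum_mem_SS (S : Multiset G) : S.sum ∈ SS S := mem_SS.mpr ⟨S, le_refl _, rfl⟩

lemma card_SS_erase {S : Multiset G} (h : ZSF S) {x : G} (hx : x ∈ S) :
    (SS (S.erase x)).card + 1 ≤ (SS S).card := by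
  have h1 := card_le_card (SS_erase_subset h hx)
  rw [card_erase_of_mem (sum_mem_SS S)] at h1
  have h2 : 0 < (SS S).card := card_pos.mpr ⟨0, zero_mem_SS S⟩
  omega

lemma card_lt_card_SS : ∀ (S : Multiset G), ZSF S → Multiset.card S + 1 ≤ (SS S).card := by
  intro S
  induction S using Multiset.induction with
  | empty =>
    intro _
    have h2 : 0 < (SS (0 : Multiset G)).card := card_pos.mpr ⟨0, zero_mem_SS _⟩
    simpa using h2
  | cons x S ih =>
    intro h
    have h1 := ih (h.mono (Multiset.le_cons_self _ _))
    have h2 := card_SS_erase h (Multiset.mem_cons_self x S)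
    rw [Multiset.erase_cons_head] at h2
    simp only [Multiset.card_cons]
    omega

/-- The structure theorem. -/
theorem SC_aux [Finite G] : ∀ (n : ℕ) (S : Multiset G), Multiset.card S = n → ZSF S →
    (SS S).card + 1 ≤ 2 * n →
    ∃ (g : G) (M : Multiset ℕ), S = M.map (fun k => k • g) ∧ (∀ k ∈ M, 1 ≤ k) ∧
      M.sum < addOrderOf g ∧ SS S = (range (M.sum + 1)).image (fun k => k • g) := by
  intro n
  induction n with
  | zero => intro S _ _ h; omega
  | succ n ih =>
    intro S hS hz hc
    by_cases hcase : ∃ x ∈ S, (SS (S.erase x)).card + 1 ≤ 2 * n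
    · obtain ⟨x, hx, hxc⟩ := hcase
      obtain ⟨S', rfl⟩ := Multiset.exists_cons_of_mem hx
      rw [Multiset.erase_cons_head] at hxc
      have hS' : Multiset.card S' = n := by simpa using hS
      have hz' : ZSF S' := hz.mono (Multiset.le_cons_self _ _)
      obtain ⟨g, M, hM, hM1, hMs, hMS⟩ := ih S' hS' hz' hxc
      have hinj : Set.InjOn (fun k : ℕ => k • g) (range (M.sum + 1)) := by
        intro i hi j hj hij
        simp only [coe_range, Set.mem_Iio] at hi hj
        have := nsmul_injOn_Iio_addOrderOf (x := g)
        exact this (by simp; omega) (by simp; omega) hij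
      have hcardS' : (SS S').card = M.sum + 1 := by
        rw [hMS, card_image_of_injOn hinj, card_range]
      have hle := card_lt_card_SS S' hz'
      have hmemS' : ∀ k : ℕ, k ≤ M.sum → ∃ T ≤ S', T.sum = k • g := by
        intro k hk
        rw [← mem_SS, hMS, mem_image]
        exact ⟨k, by simp; omega, rfl⟩
      have hnodisj : ¬ Disjoint (SS S') ((SS S').image (fun y => x + y)) := by
        intro hd
        rw [SS_cons, card_union_of_disjoint hd, card_image_of_injective _ (add_right_injective x)] at hc
        omega
      rw [not_disjoint_iff] at hnodisj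
      obtain ⟨y, hy1, hy2⟩ := hnodisj
      rw [mem_image] at hy2
      obtain ⟨w, hw, hwy⟩ := hy2
      rw [hMS, mem_image] at hy1 hw
      obtain ⟨i, hi, rfl⟩ := hy1
      obtain ⟨j, hj, rfl⟩ := hw
      rw [mem_range] at hi hj
      have hij : j < i := by
        by_contra hcon
        push Not at hcon
        obtain ⟨T, hT, hTs⟩ := hmemS' (j - i) (by omega)
        refine hz (x ::ₘ T) (Multiset.cons_le_cons _ hT) (by simp) ?_
        rw [Multiset.sum_cons, hTs]
        have h1 : j = (j - i) + i := by omega
        have h2 : x + (j - i) • g + i • g = i • g := by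
          rw [add_assoc, ← add_nsmul, ← h1]; exact hwy
        simpa using h2
      have hxa : x = (i - j) • g := by
        have h1 : i = (i - j) + j := by omega
        have h2 : x + j • g = (i - j) • g + j • g := by
          rw [← add_nsmul, ← h1]; exact hwy
        exact add_right_cancel h2
      set a := i - j with ha
      have ha1 : 1 ≤ a := by omega
      have ha2 : a ≤ M.sum := by omega
      have hlt : a + M.sum < addOrderOf g := by
        by_contra hcon
        push Not at hcon
        obtain ⟨T, hT, hTs⟩ := hmemS' (addOrderOf g - a) (by omega)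
        refine hz (x ::ₘ T) (Multiset.cons_le_cons _ hT) (by simp) ?_
        rw [Multiset.sum_cons, hTs, hxa, ← add_nsmul]
        have : a + (addOrderOf g - a) = addOrderOf g := by omega
        rw [this, addOrderOf_nsmul_eq_zero]
      refine ⟨g, a ::ₘ M, ?_, ?_, ?_, ?_⟩
      · rw [Multiset.map_cons, ← hM, ← hxa]
      · intro k hk
        rw [Multiset.mem_cons] at hk
        rcases hk with rfl | hk
        · exact ha1
        · exact hM1 k hk
      · rw [Multiset.sum_cons]; exact hlt
      · rw [SS_cons, hMS, Multiset.sum_cons]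
        ext y
        simp only [mem_union, mem_image, mem_range]
        constructor
        · rintro (⟨k, hk, rfl⟩ | ⟨_, ⟨k, hk, rfl⟩, rfl⟩)
          · exact ⟨k, by omega, rfl⟩
          · exact ⟨a + k, by omega, by rw [add_nsmul, hxa]⟩
        · rintro ⟨k, hk, rfl⟩
          by_cases hk' : k < M.sum + 1
          · left; exact ⟨k, hk', rfl⟩
          · right
            refine ⟨(k - a) • g, ⟨k - a, by omega, rfl⟩, ?_⟩
            rw [hxa, ← add_nsmul]
            congr 1
            omega
    · push Not at hcase
      have hne : S ≠ 0 := by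
        intro h; rw [h] at hS; simp at hS
      have hB : ∀ x ∈ S, SS (S.erase x) = (SS S).erase S.sum := by
        intro x hx
        apply eq_of_subset_of_card_le (SS_erase_subset hz hx)
        have h1 := hcase x hx
        rw [card_erase_of_mem (sum_mem_SS S)]
        omega
      obtain ⟨g, hg⟩ := Multiset.exists_mem_of_ne_zero hne
      by_cases hall : ∀ x ∈ S, x = g
      · have hrep : S = Multiset.replicate (n + 1) g :=
          Multiset.eq_replicate.mpr ⟨hS, hall⟩
        have hlt : n + 1 < addOrderOf g := by
          by_contra hcon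
          push Not at hcon
          have hpos := addOrderOf_pos g
          refine hz (Multiset.replicate (addOrderOf g) g) ?_ ?_ ?_
          · rw [hrep]
            exact Multiset.replicate_le_replicate g |>.mpr hcon
          · intro h0
            have := congrArg Multiset.card h0
            rw [Multiset.card_replicate, Multiset.card_zero] at this
            omega
          · rw [Multiset.sum_replicate, addOrderOf_nsmul_eq_zero]
        refine ⟨g, Multiset.replicate (n + 1) 1, ?_, ?_, ?_, ?_⟩
        · rw [Multiset.map_replicate, one_nsmul, hrep]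
        · intro k hk
          rw [Multiset.eq_of_mem_replicate hk]
        · rw [Multiset.sum_replicate]; simpa using hlt
        · ext y
          simp only [mem_image, mem_range, mem_SS, Multiset.sum_replicate, smul_eq_mul, mul_one]
          constructor
          · rintro ⟨T, hT, rfl⟩
            rw [hrep] at hT
            obtain ⟨k, hk, rfl⟩ := Multiset.le_replicate_iff.mp hT
            exact ⟨k, by omega, by rw [Multiset.sum_replicate]⟩
          · rintro ⟨k, hk, rfl⟩
            refine ⟨Multiset.replicate k g, ?_, by rw [Multiset.sum_replicate]⟩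
            rw [hrep]
            exact Multiset.replicate_le_replicate g |>.mpr (by omega)
      · exfalso
        push Not at hall
        obtain ⟨x, hx, hxg⟩ := hall
        set h := x - g with hh
        have hh0 : h ≠ 0 := sub_ne_zero.mpr hxg
        have hsx : (S.erase x).sum = S.sum - x := by
          rw [← Multiset.sub_singleton, sum_sub_of_le (Multiset.singleton_le.mpr hx)]; simp
        have hsg : (S.erase g).sum = S.sum - g := by
          rw [← Multiset.sub_singleton, sum_sub_of_le (Multiset.singleton_le.mpr hg)]; simp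
        have hstab : ∀ b, b ∈ (SS S).erase S.sum → h + b ∈ (SS S).erase S.sum := by
          intro b hb
          rw [← hB x hx] at hb
          have h1 := SS_symm' hb
          rw [hsx, hB x hx, ← hB g hg] at h1
          have h2 := SS_symm' h1
          rw [hsg, hB g hg] at h2
          have h3 : S.sum - g - (S.sum - x - b) = h + b := by rw [hh]; abel
          rwa [h3] at h2
        have h0B : (0 : G) ∈ (SS S).erase S.sum := by
          rw [← hB x hx]; exact zero_mem_SS _
        have hhB := hstab 0 h0B
        rw [add_zero, ← hB x hx] at hhB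
        obtain ⟨T, hT, hTs⟩ := mem_SS.mp hhB
        have hT0 : T ≠ 0 := by
          intro h0; rw [h0] at hTs; simp at hTs; exact hh0 hTs.symm
        obtain ⟨z, hzT⟩ := Multiset.exists_mem_of_ne_zero hT0
        have hTS : T ≤ S := hT.trans (Multiset.erase_le _ _)
        have hzS : z ∈ S := Multiset.mem_of_le hTS hzT
        have h4 : S.sum - h ∈ SS (S.erase z) := by
          rw [mem_SS]
          refine ⟨S - T, ?_, by rw [sum_sub_of_le hTS, hTs]⟩
          rw [← Multiset.sub_singleton]
          exact tsub_le_tsub_left (Multiset.singleton_le.mpr hzT) S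
        rw [hB z hzS] at h4
        have h5 := hstab _ h4
        rw [add_sub_cancel] at h5
        simp at h5

end

end Pool.Agent.Lib.MP_057dff_co
end
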