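import Mathlib
import Pool.Agent.Lib.MP_057dff_co.SC

section

set_option autoImplicit false
set_option linter.unusedSectionVars false
set_option linter.unusedVariables false

/-! Length of minimal zero-sum sequences of integers, and the refinement property of multisets. -/

namespace Pool.Agent.Lib.MP_057dff_co

lemma sum_pos_of_all_pos (s : Multiset ℤ) (hs : s ≠ 0) (h : ∀ c ∈ s, 0 < c) : 0 < s.sum := by
  induction s using Multiset.induction with
  | empty => exact absurd rfl hs
  | cons a s ih =>
    rw [Multiset.sum_cons]
    by_cases h0 : s = 0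
    · rw [h0]; simp; exact h a (by simp)
    · have := ih h0 (fun c hc => h c (by simp [hc]))
      have := h a (by simp)
      omega

lemma sum_neg_of_all_neg (s : Multiset ℤ) (hs : s ≠ 0) (h : ∀ c ∈ s, c < 0) : s.sum < 0 := by
  induction s using Multiset.induction with
  | empty => exact absurd rfl hs
  | cons a s ih =>
    rw [Multiset.sum_cons]
    by_cases h0 : s = 0
    · rw [h0]; simp; exact h a (by simp)
    · have := ih h0 (fun c hc => h c (by simp [hc]))
      have := h a (by simp)
      omega

theorem lambert : ∀ (n : ℕ) (s : Multiset ℤ), Multiset.card s = n → s.sum = 0 →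
    (∀ t ≤ s, t ≠ 0 → t.sum = 0 → t = s) →
    Multiset.card s ≤ 1 + (s.map (fun c => (-c).toNat)).sum := by
  intro n
  induction n with
  | zero => intro s hs _ _; omega
  | succ n ih =>
    intro s hs h0 hmin
    by_cases hn : n = 0
    · omega
    have hsne : s ≠ 0 := by
      intro h; rw [h] at hs; simp at hs
    have hnz : ∀ c ∈ s, c ≠ 0 := by
      intro c hc hc0
      have := hmin {c} (Multiset.singleton_le.mpr hc) (by simp) (by simp [hc0])
      rw [← this] at hs
      simp at hs
      omega
    obtain ⟨p, hp, hppos⟩ : ∃ p ∈ s, 0 < p := by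
      by_contra hcon
      push Not at hcon
      have := sum_neg_of_all_neg s hsne (fun c hc => by
        have h1 := hcon c hc
        have h2 := hnz c hc
        omega)
      omega
    obtain ⟨q, hq, hqneg⟩ : ∃ q ∈ s, q < 0 := by
      by_contra hcon
      push Not at hcon
      have := sum_pos_of_all_pos s hsne (fun c hc => by
        have h1 := hcon c hc
        have h2 := hnz c hc
        omega)
      omega
    obtain ⟨s1, rfl⟩ := Multiset.exists_cons_of_mem hp
    have hq1 : q ∈ s1 := by
      rw [Multiset.mem_cons] at hq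
      rcases hq with h | h
      · omega
      · exact h
    obtain ⟨r, rfl⟩ := Multiset.exists_cons_of_mem hq1
    have hcard : Multiset.card ((p + q) ::ₘ r) = n := by
      simp at hs ⊢; omega
    have hsum : ((p + q) ::ₘ r).sum = 0 := by
      simp only [Multiset.sum_cons] at h0 ⊢; omega
    have hmin' : ∀ t ≤ (p + q) ::ₘ r, t ≠ 0 → t.sum = 0 → t = (p + q) ::ₘ r := by
      intro t ht ht0 hts
      by_cases hmem : p + q ∈ t
      · obtain ⟨t', rfl⟩ := Multiset.exists_cons_of_mem hmem
        rw [Multiset.cons_le_cons_iff] at ht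
        have := hmin (p ::ₘ q ::ₘ t') (Multiset.cons_le_cons _ (Multiset.cons_le_cons _ ht))
          (by simp) (by simp at hts ⊢; omega)
        rw [Multiset.cons_inj_right, Multiset.cons_inj_right] at this
        rw [this]
      · rw [Multiset.le_cons_of_notMem hmem] at ht
        have := hmin t (ht.trans ((Multiset.le_cons_self _ _).trans (Multiset.le_cons_self _ _)))
          ht0 hts
        have h1 := Multiset.card_le_card ht
        rw [this] at h1
        simp only [Multiset.card_cons] at h1
        omega
    have := ih _ hcard hsum hmin'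
    simp only [Multiset.card_cons, Multiset.map_cons, Multiset.sum_cons] at this ⊢
    omega

/-- Refinement of a decomposition into three summands. -/
theorem refine3 {α : Type*} [DecidableEq α] : ∀ (l : List (Multiset α)) (U V W : Multiset α),
    l.sum = U + V + W →
    ∃ l' : List (Multiset α × Multiset α × Multiset α),
      l'.map (fun t => t.1 + t.2.1 + t.2.2) = l ∧
      (l'.map (fun t => t.1)).sum = U ∧ (l'.map (fun t => t.2.1)).sum = V ∧
      (l'.map (fun t => t.2.2)).sum = W := by
  intro l
  induction l with
  | nil =>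
    intro U V W h
    refine ⟨[], rfl, ?_⟩
    simp only [List.sum_nil] at h
    have h' : U + V + W = 0 := h.symm
    simp only [add_eq_zero] at h'
    obtain ⟨⟨h1, h2⟩, h3⟩ := h'
    simp [h1, h2, h3]
  | cons T l ih =>
    intro U V W h
    rw [List.sum_cons] at h
    have hcount : ∀ a, Multiset.count a T + Multiset.count a l.sum =
        Multiset.count a U + Multiset.count a V + Multiset.count a W := by
      intro a
      have := congrArg (Multiset.count a) h
      simpa using this
    set X := T ∩ U with hX
    set Y := (T - X) ∩ V with hY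
    set Z := T - X - Y with hZ
    have hT : X + Y + Z = T := by
      ext a
      simp only [hX, hY, hZ, Multiset.count_add, Multiset.count_sub, Multiset.count_inter]
      omega
    have hrest : l.sum = (U - X) + (V - Y) + (W - Z) := by
      ext a
      have := hcount a
      simp only [hX, hY, hZ, Multiset.count_add, Multiset.count_sub, Multiset.count_inter]
      omega
    obtain ⟨l', h1, h2, h3, h4⟩ := ih _ _ _ hrest
    refine ⟨(X, Y, Z) :: l', ?_, ?_, ?_, ?_⟩
    · simp only [List.map_cons, h1, hT]
    · simp only [List.map_cons, List.sum_cons, h2]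
      ext a
      simp only [hX, Multiset.count_add, Multiset.count_sub, Multiset.count_inter]
      omega
    · simp only [List.map_cons, List.sum_cons, h3]
      ext a
      simp only [hX, hY, Multiset.count_add, Multiset.count_sub, Multiset.count_inter]
      omega
    · simp only [List.map_cons, List.sum_cons, h4]
      ext a
      have := hcount a
      simp only [hX, hY, hZ, Multiset.count_add, Multiset.count_sub, Multiset.count_inter]
      omega

end Pool.Agent.Lib.MP_057dff_co
end

section

set_option autoImplicit false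
set_option linter.unusedSectionVars false
set_option linter.unusedVariables false

/-!
If every product of three atoms has only factorizations of length at most `D + 1`, `D` the length
of some atom of maximal length, then the group is cyclic or a Klein four group.
-/

namespace Pool.Agent.Lib.MP_057dff_co

open Finset

/-- Minimal zero-sum sequences. -/
def Atom {G : Type*} [AddCommGroup G] (S : Multiset G) : Prop :=
  S ≠ 0 ∧ S.sum = 0 ∧ ∀ T : Multiset G, T ≤ S → T ≠ 0 → T.sum = 0 → T = S

/-- `A` is a product of `m` atoms. -/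
def Fac {G : Type*} [AddCommGroup G] (A : Multiset G) (m : ℕ) : Prop :=
  ∃ l : List (Multiset G), l.length = m ∧ (∀ S ∈ l, Atom S) ∧ l.sum = A

lemma exists_le_of_le_map {α β : Type*} (f : α → β) (s : Multiset α) :
    ∀ T : Multiset β, T ≤ s.map f → ∃ s' ≤ s, s'.map f = T := by
  classical
  induction s using Multiset.induction with
  | empty =>
    intro T hT
    rw [Multiset.map_zero, Multiset.le_zero] at hT
    exact ⟨0, le_refl _, by rw [hT, Multiset.map_zero]⟩
  | cons a s ih =>
    intro T hT
    rw [Multiset.map_cons] at hT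
    by_cases ha : f a ∈ T
    · obtain ⟨T', rfl⟩ := Multiset.exists_cons_of_mem ha
      rw [Multiset.cons_le_cons_iff] at hT
      obtain ⟨s', hs', hs''⟩ := ih T' hT
      exact ⟨a ::ₘ s', Multiset.cons_le_cons _ hs', by rw [Multiset.map_cons, hs'']⟩
    · rw [Multiset.le_cons_of_notMem ha] at hT
      obtain ⟨s', hs', hs''⟩ := ih T hT
      exact ⟨s', hs'.trans (Multiset.le_cons_self _ _), hs''⟩

lemma exists_finset_of_le_map {α β : Type*} (f : α → β) (S : Finset α) (T : Multiset β)
    (hT : T ≤ S.val.map f) : ∃ I ⊆ S, I.val.map f = T := by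
  obtain ⟨s', hs', hs''⟩ := exists_le_of_le_map f S.val T hT
  have hnd : s'.Nodup := Multiset.nodup_of_le hs' S.nodup
  refine ⟨⟨s', hnd⟩, ?_, hs''⟩
  rw [← Finset.val_le_iff]
  exact hs'

variable {G : Type*} [AddCommGroup G]

lemma atom_pair {a : G} (ha : a ≠ 0) : Atom ({a, -a} : Multiset G) := by
  classical
  refine ⟨by simp, by simp, ?_⟩
  intro T hT h0 hs
  have hmem : T ∈ ({a, -a} : Multiset G).powerset := Multiset.mem_powerset.mpr hT
  have : ({a, -a} : Multiset G) = a ::ₘ (-a) ::ₘ 0 := rfl
  rw [this] at hmem ⊢
  simp only [Multiset.powerset_cons, Multiset.powerset_zero, Multiset.map_singleton,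
    Multiset.map_add, Multiset.mem_add, Multiset.mem_singleton] at hmem
  rcases hmem with (h | h) | (h | h)
  · exact absurd h h0
  · rw [h] at hs; simp at hs; exact absurd hs ha
  · rw [h] at hs; simp at hs; exact absurd hs ha
  · exact h

section fam
variable {ι : Type*} [Fintype ι] [DecidableEq ι] {g : ι → G}

lemma fam_of_atom (h : Atom ((univ : Finset ι).val.map g)) : AtomFam g := by
  refine ⟨h.2.1, ?_⟩
  intro I hI hs
  have h1 : I.val.map g ≤ (univ : Finset ι).val.map g :=
    Multiset.map_le_map (Finset.val_le_iff.mpr (subset_univ I))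
  have h2 : I.val.map g ≠ 0 := by
    intro h0
    rw [Multiset.map_eq_zero, Finset.val_eq_zero] at h0
    rw [h0] at hI
    simp at hI
  have h3 := h.2.2 _ h1 h2 hs
  have h4 := congrArg Multiset.card h3
  simp only [Multiset.card_map, Finset.card_val] at h4
  exact Finset.eq_univ_of_card I (by rw [h4, card_univ])

/-- The replacement atom. -/
lemma atom_swap (h : AtomFam g) {S : Finset ι} (hS : S ≠ univ) {x : G}
    (hx : ∀ I ⊆ S, ∑ i ∈ I, g i ≠ x) :
    Atom ((S.val.map fun i => - g i) + {x, ∑ i ∈ S, g i - x}) := by
  classical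
  obtain ⟨j, hj⟩ : ∃ j, j ∉ S := by
    by_contra hcon
    push Not at hcon
    exact hS (eq_univ_of_forall hcon)
  have key : ∀ I : Finset ι, (I.val.map fun i => - g i).sum = - ∑ i ∈ I, g i := by
    intro I
    rw [← Finset.sum_neg_distrib]; rfl
  refine ⟨?_, ?_, ?_⟩
  · intro h0
    have := congrArg Multiset.card h0
    simp at this
  · rw [Multiset.sum_add, key]
    simp
  · intro T hT hT0 hTs
    set P := S.val.map fun i => - g i with hP
    have hsplit : T = T ∩ P + (T - P) := by
      rw [add_comm, Multiset.sub_add_inter]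
    obtain ⟨I, hIS, hI⟩ := exists_finset_of_le_map (fun i => - g i) S (T ∩ P)
      (Multiset.inter_le_right)
    have h2 : T - P ≤ {x, ∑ i ∈ S, g i - x} := by
      rw [tsub_le_iff_left]; exact hT
    have hmem : T - P ∈ (x ::ₘ (∑ i ∈ S, g i - x) ::ₘ (0 : Multiset G)).powerset :=
      Multiset.mem_powerset.mpr h2
    simp only [Multiset.powerset_cons, Multiset.powerset_zero, Multiset.map_singleton,
      Multiset.map_add, Multiset.mem_add, Multiset.mem_singleton] at hmem
    rw [hsplit, ← hI, Multiset.sum_add, key] at hTs
    have hjI : j ∉ I := fun hh => hj (hIS hh)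
    rcases hmem with (h3 | h3) | (h3 | h3)
    · exfalso
      rw [h3] at hTs
      simp only [Multiset.sum_zero, add_zero, neg_eq_zero] at hTs
      have := h.empty_of_notMem hTs hjI
      rw [this] at hI
      apply hT0
      rw [hsplit, ← hI, h3]; simp
    · exfalso
      rw [h3] at hTs
      simp only [Multiset.sum_cons, Multiset.sum_zero, add_zero] at hTs
      -- `∑ S - x = ∑ I`
      apply hx (S \ I) sdiff_subset
      have h4 := sum_sdiff (f := g) hIS
      have h5 : ∑ i ∈ I, g i = ∑ i ∈ S, g i - x := by
        have : -∑ i ∈ I, g i + (∑ i ∈ S, g i - x) + ∑ i ∈ I, g i = ∑ i ∈ I, g i := by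
          rw [hTs, zero_add]
        rw [← this]; abel
      have h6 : ∑ i ∈ S \ I, g i = ∑ i ∈ S, g i - ∑ i ∈ I, g i := by
        rw [← h4]; abel
      rw [h6, h5]; abel
    · exfalso
      rw [h3] at hTs
      simp only [Multiset.sum_cons, Multiset.sum_zero, add_zero] at hTs
      apply hx I hIS
      have : -∑ i ∈ I, g i + x + ∑ i ∈ I, g i = ∑ i ∈ I, g i := by rw [hTs, zero_add]
      rw [← this]; abel
    · rw [h3] at hTs
      simp only [Multiset.sum_cons, Multiset.sum_zero, add_zero] at hTs
      have h4 := sum_sdiff (f := g) hIS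
      have h6 : ∑ i ∈ S \ I, g i = 0 := by
        have e1 : ∑ i ∈ S \ I, g i = ∑ i ∈ S, g i - ∑ i ∈ I, g i := by
          rw [← h4]; abel
        rw [e1, ← hTs]; abel
      have h7 := h.empty_of_notMem h6 (j := j) (by simp [hj])
      have h8 : I = S := subset_antisymm hIS (sdiff_eq_empty_iff_subset.mp h7)
      rw [hsplit, ← hI, h3, h8]
      rfl

/-- If all factorizations of products of three atoms are short then `PropP` holds. -/
lemma propP_of_bound (h : Atom ((univ : Finset ι).val.map g))
    (hb : ∀ (A : Multiset G) (m : ℕ), Fac A 3 → Fac A m → m ≤ Fintype.card ι + 1) :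
    PropP g := by
  classical
  have hf := fam_of_atom h
  intro S hS hSu x
  by_contra hcon
  push Not at hcon
  obtain ⟨h1, h2⟩ := hcon
  set y := ∑ i ∈ S, g i - x with hy
  have hSc : Sᶜ ≠ univ := by
    intro hh
    rw [compl_eq_univ_iff] at hh
    rw [hh] at hS
    simp at hS
  have hB := atom_swap hf hSu h1
  have hC := atom_swap hf (S := Sᶜ) (x := -x) hSc (by
    intro I hI
    exact h2 I (by
      rw [Finset.disjoint_left]
      intro a ha
      have := hI ha
      rwa [mem_compl] at this))
  have hy' : ∑ i ∈ Sᶜ, g i - -x = - y := by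
    rw [sum_compl' hf, hy]; abel
  rw [hy'] at hC
  rw [← hy] at hB
  have hx0 : x ≠ 0 := by
    intro hh
    exact h1 ∅ (empty_subset _) (by simp [hh])
  have hy0 : y ≠ 0 := by
    intro hh
    apply h1 S (subset_refl _)
    rw [hy] at hh
    exact sub_eq_zero.mp hh
  have hcard : ∃ a b : ι, a ≠ b := by
    obtain ⟨a, ha⟩ := hS
    obtain ⟨b, hb⟩ : ∃ b, b ∉ S := by
      by_contra hcon
      push Not at hcon
      exact hSu (eq_univ_of_forall hcon)
    exact ⟨a, b, fun hh => hb (hh ▸ ha)⟩
  have hg0 : ∀ i, g i ≠ 0 := by
    intro i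
    obtain ⟨a, b, hab⟩ := hcard
    by_cases hi : i = a
    · exact hf.ne_zero (i := i) (j := b) (hi ▸ hab)
    · exact hf.ne_zero hi
  set U := (univ : Finset ι).val.map g with hU
  set B := (S.val.map fun i => - g i) + {x, y} with hBdef
  set C := (Sᶜ.val.map fun i => - g i) + {-x, -y} with hCdef
  have hfac3 : Fac (U + B + C) 3 := by
    refine ⟨[U, B, C], rfl, ?_, by simp [add_assoc]⟩
    intro T hT
    simp only [List.mem_cons, List.not_mem_nil, or_false] at hT
    rcases hT with rfl | rfl | rfl
    · exact h
    · exact hB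
    · exact hC
  have hfac : Fac (U + B + C) (Fintype.card ι + 2) := by
    refine ⟨(univ : Finset ι).toList.map (fun i => ({g i, - g i} : Multiset G)) ++
      [{x, -x}, {y, -y}], ?_, ?_, ?_⟩
    · simp
    · intro T hT
      simp only [List.mem_append, List.mem_map, Finset.mem_toList, Finset.mem_univ, true_and,
        List.mem_cons, List.not_mem_nil, or_false] at hT
      rcases hT with ⟨i, rfl⟩ | rfl | rfl
      · exact atom_pair (hg0 i)
      · exact atom_pair hx0
      · exact atom_pair hy0
    · rw [List.sum_append, Finset.sum_map_toList]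
      have e1 : ∑ i, ({g i, - g i} : Multiset G) = U + (univ : Finset ι).val.map (fun i => - g i) := by
        have : ∀ i, ({g i, - g i} : Multiset G) = {g i} + {- g i} := fun i => rfl
        simp_rw [this]
        rw [Finset.sum_add_distrib]
        have e0 : ∀ f : ι → G, ∑ i, ({f i} : Multiset G) = (univ : Finset ι).val.map f := by
          intro f
          have : ((univ : Finset ι).val.map (fun i => ({f i} : Multiset G))) =
              (((univ : Finset ι).val.map f).map (fun a => ({a} : Multiset G))) := by
            rw [Multiset.map_map]; rfl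
          rw [Finset.sum_eq_multiset_sum, this, Multiset.sum_map_singleton]
        rw [e0, e0]
      have e2 : (univ : Finset ι).val.map (fun i => - g i) =
          (S.val.map fun i => - g i) + (Sᶜ.val.map fun i => - g i) := by
        rw [← Multiset.map_add]
        congr 1
        have : (univ : Finset ι) = S.disjUnion Sᶜ disjoint_compl_right := by
          rw [Finset.disjUnion_eq_union, Finset.union_compl]
        rw [this]
        rfl
      rw [e1, e2, hBdef, hCdef]
      have e3 : ({x, y} : Multiset G) = {x} + {y} := rfl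
      have e4 : ({-x, -y} : Multiset G) = {-x} + {-y} := rfl
      have e5 : ({x, -x} : Multiset G) = {x} + {-x} := rfl
      have e6 : ({y, -y} : Multiset G) = {y} + {-y} := rfl
      simp only [List.sum_cons, List.sum_nil, e3, e4, e5, e6, add_zero]
      abel
  have := hb _ _ hfac3 hfac
  omega

end fam

end Pool.Agent.Lib.MP_057dff_co
end

section

set_option autoImplicit false
set_option linter.unusedSectionVars false
set_option linter.unusedVariables false

/-! The necessity part of the characterization. -/

namespace Pool.Agent.Lib.MP_057dff_co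

open Finset

theorem cyclic_or_klein {G : Type*} [AddCommGroup G] [Fintype G] (h3 : 3 ≤ Fintype.card G) (D : ℕ)
    (hU : ∃ S : Multiset G, Atom S ∧ Multiset.card S = D)
    (hmax : ∀ S : Multiset G, Atom S → Multiset.card S ≤ D)
    (hb : ∀ (A : Multiset G) (m : ℕ), Fac A 3 → Fac A m → m ≤ D + 1) :
    IsAddCyclic G ∨ Nonempty (G ≃+ (ZMod 2 × ZMod 2)) := by
  classical
  obtain ⟨S, hS, hSD⟩ := hU
  -- `D ≥ 2`
  have hD2 : 2 ≤ D := by
    have : Nontrivial G := Fintype.one_lt_card_iff_nontrivial.mp (by omega)
    obtain ⟨a, ha⟩ := exists_ne (0 : G)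
    have := hmax _ (atom_pair ha)
    simpa using this
  obtain ⟨n, g, hgS⟩ : ∃ (n : ℕ) (g : Fin n → G), (univ : Finset (Fin n)).val.map g = S := by
    refine ⟨S.toList.length, S.toList.get, ?_⟩
    rw [Fin.univ_val_map, List.ofFn_get, Multiset.coe_toList]
  have hn : n = D := by
    rw [← hSD, ← hgS]; simp
  subst hn
  rw [← hgS] at hS
  have hf := fam_of_atom hS
  have hP : PropP g := propP_of_bound hS (by
    intro A m h1 h2
    have := hb A m h1 h2
    simpa using this)
  let i0 : Fin n := ⟨0, by omega⟩
  let i1 : Fin n := ⟨1, by omega⟩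
  have h01 : i1 ≠ i0 := by
    intro hh
    have := congrArg Fin.val hh
    simp [i0, i1] at this
  have hcov : ∀ x : G, ∃ I ⊆ univ.erase i0, ∑ i ∈ I, g i = x := by
    intro x
    have hne : (univ.erase i0).Nonempty := ⟨i1, by simp [h01]⟩
    have hne' : (univ.erase i0 : Finset (Fin n)) ≠ univ := by
      intro hh
      have := mem_univ i0
      rw [← hh] at this
      simp at this
    rcases hP _ hne hne' x with ⟨I, hI, hs⟩ | ⟨J, hJ, hs⟩
    · exact ⟨I, hI, hs⟩
    · have hJ' : J ⊆ {i0} := by
        intro y hy
        by_contra hxi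
        have : y ∈ univ.erase i0 := by simpa using hxi
        exact (Finset.disjoint_left.mp hJ) hy this
      rcases Finset.subset_singleton_iff.mp hJ' with h1 | h1
      · refine ⟨∅, empty_subset _, ?_⟩
        rw [h1, sum_empty] at hs
        have : x = 0 := by
          have := congrArg (fun t => - t) hs
          simpa using this.symm
        rw [this, sum_empty]
      · refine ⟨univ.erase i0, subset_refl _, ?_⟩
        rw [h1, sum_singleton] at hs
        rw [sum_erase_eq (mem_univ _), hf.1, hs]; simp
  by_cases hn4 : 4 ≤ n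
  · left
    have hc : ∀ i, g i = g i0 := fun i => const_of_propP hf hP (by simpa using hn4) i i0
    refine ⟨g i0, fun x => ?_⟩
    obtain ⟨I, -, hI⟩ := hcov x
    refine ⟨(I.card : ℤ), ?_⟩
    show (I.card : ℤ) • g i0 = x
    rw [← hI, Finset.sum_congr rfl (fun i _ => hc i), sum_const]
    simp
  · have hcard : Fintype.card G ≤ 4 := by
      have hsurj : (univ : Finset G) ⊆ ((univ.erase i0).powerset).image (fun I => ∑ i ∈ I, g i) := by
        intro x _
        obtain ⟨I, h1, h2⟩ := hcov x
        rw [mem_image]
        exact ⟨I, by simpa using h1, h2⟩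
      have h1 := card_le_card hsurj
      have h2 := h1.trans card_image_le
      rw [card_univ, card_powerset, card_erase_of_mem (mem_univ _), card_univ, Fintype.card_fin] at h2
      have h3 : 2 ^ (n - 1) ≤ 2 ^ 2 := Nat.pow_le_pow_right (by norm_num) (by omega)
      omega
    have h34 : Fintype.card G = 3 ∨ Fintype.card G = 4 := by omega
    rcases h34 with h | h
    · left
      have : Fact (Nat.Prime 3) := ⟨by norm_num⟩
      exact isAddCyclic_of_prime_card (p := 3) (by rw [Nat.card_eq_fintype_card, h])
    · by_cases hc : IsAddCyclic G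
      · left; exact hc
      · right
        have h4 : Nat.card G = 2 ^ 2 := by rw [Nat.card_eq_fintype_card, h]; norm_num
        have hexp := (not_isAddCyclic_iff_exponent_eq_prime Nat.prime_two h4).mp hc
        have : IsAddKleinFour G := ⟨by rw [h4]; norm_num, hexp⟩
        exact IsAddKleinFour.nonempty_addEquiv

end Pool.Agent.Lib.MP_057dff_co
end

section

set_option autoImplicit false
set_option linter.unusedSectionVars false
set_option linter.unusedVariables false

/-! Long minimal zero-sum sequences, and the key estimate for two opposite generators. -/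

namespace Pool.Agent.Lib.MP_057dff_co

open Finset

variable {G : Type*} [AddCommGroup G]

/-- `U` consists of positive multiples of `g` with coefficients summing to the order of the group. -/
def Idx [Fintype G] (g : G) (U : Multiset G) : Prop :=
  ∃ M : Multiset ℕ, U = M.map (fun k => k • g) ∧ (∀ k ∈ M, 1 ≤ k) ∧ M.sum = Fintype.card G

lemma Atom.zsf_erase [DecidableEq G] {U : Multiset G} (hU : Atom U) {x : G} (hx : x ∈ U) :
    ZSF (U.erase x) := by
  intro T hT h0 hs
  have h1 := hU.2.2 T (hT.trans (Multiset.erase_le _ _)) h0 hs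
  have h2 := Multiset.card_le_card hT
  have h3 := Multiset.card_erase_lt_of_mem hx
  rw [h1] at h2
  omega

lemma Atom.card_le [Fintype G] {U : Multiset G} (hU : Atom U) :
    Multiset.card U ≤ Fintype.card G := by
  classical
  obtain ⟨x, hx⟩ := Multiset.exists_mem_of_ne_zero hU.1
  have h1 := card_lt_card_SS _ (hU.zsf_erase hx)
  have h2 := Multiset.card_erase_add_one hx
  have h3 := Finset.card_le_univ (SS (U.erase x))
  omega

lemma Atom.eq_zero_of_mem {U : Multiset G} (hU : Atom U) (h0 : (0 : G) ∈ U) : U = {0} := by
  have := hU.2.2 {0} (Multiset.singleton_le.mpr h0) (by simp) (by simp)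
  exact this.symm

lemma Atom.card_ge {U : Multiset G} (hU : Atom U) (h0 : (0 : G) ∉ U) : 2 ≤ Multiset.card U := by
  by_contra hcon
  push Not at hcon
  have h1 : Multiset.card U ≠ 0 := by
    intro h
    exact hU.1 (Multiset.card_eq_zero.mp h)
  have h2 : Multiset.card U = 1 := by omega
  obtain ⟨x, rfl⟩ := Multiset.card_eq_one.mp h2
  have := hU.2.1
  simp at this
  simp [this] at h0

lemma sum_pred_le (M : Multiset ℕ) (h : ∀ k ∈ M, 1 ≤ k) :
    (M.map (fun k => if k = 1 then 0 else 1)).sum + Multiset.card M ≤ M.sum := by
  induction M using Multiset.induction with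
  | empty => simp
  | cons a M ih =>
    have h1 := ih (fun k hk => h k (by simp [hk]))
    have h2 := h a (by simp)
    simp only [Multiset.map_cons, Multiset.sum_cons, Multiset.card_cons]
    split_ifs <;> omega

/-- Long atoms. -/
theorem exists_idx_of_long [Fintype G] {U : Multiset G} (hU : Atom U)
    (hlong : Fintype.card G + 3 ≤ 2 * Multiset.card U) :
    ∃ g : G, addOrderOf g = Fintype.card G ∧ Idx g U := by
  classical
  obtain ⟨x, hx⟩ := Multiset.exists_mem_of_ne_zero hU.1
  have hz := hU.zsf_erase hx
  have hcard := Multiset.card_erase_add_one hx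
  have hle := Finset.card_le_univ (SS (U.erase x))
  obtain ⟨g, M, hM, hM1, hMs, hMS⟩ := SC_aux (Multiset.card (U.erase x)) (U.erase x) rfl hz (by omega)
  have hMcard : Multiset.card M = Multiset.card (U.erase x) := by
    conv_rhs => rw [hM]
    rw [Multiset.card_map]
  have hMsum : Multiset.card M ≤ M.sum := by
    have := sum_pred_le M hM1
    omega
  have hdvd : addOrderOf g ∣ Fintype.card G := addOrderOf_dvd_card
  have hord : addOrderOf g = Fintype.card G := by
    obtain ⟨c, hc⟩ := hdvd
    have hpos : 0 < Fintype.card G := Fintype.card_pos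
    have hc1 : c = 1 := by
      by_contra hcon
      have hc0 : c ≠ 0 := by rintro rfl; simp at hc
      have : 2 ≤ c := by omega
      have h3 : addOrderOf g * 2 ≤ addOrderOf g * c := Nat.mul_le_mul_left _ this
      omega
    rw [hc1] at hc
    omega
  refine ⟨g, hord, (Fintype.card G - M.sum) ::ₘ M, ?_, ?_, ?_⟩
  · rw [Multiset.map_cons, ← hM]
    have hxs : x + (U.erase x).sum = 0 := by
      rw [← Multiset.sum_cons, Multiset.cons_erase hx, hU.2.1]
    have hEs : (U.erase x).sum = M.sum • g := by
      rw [hM]
      clear hM hM1 hMs hMS hMcard hMsum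
      induction M using Multiset.induction with
      | empty => simp
      | cons a M ih => rw [Multiset.map_cons, Multiset.sum_cons, Multiset.sum_cons, add_nsmul, ih]
    have : x = (Fintype.card G - M.sum) • g := by
      have h1 : (Fintype.card G - M.sum) • g + M.sum • g = 0 := by
        rw [← add_nsmul, Nat.sub_add_cancel (by omega), ← hord, addOrderOf_nsmul_eq_zero]
      rw [hEs] at hxs
      exact add_right_cancel (hxs.trans h1.symm)
    rw [← this, Multiset.cons_erase hx]
  · intro k hk
    rw [Multiset.mem_cons] at hk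
    rcases hk with rfl | hk
    · omega
    · exact hM1 k hk
  · rw [Multiset.sum_cons]
    omega

lemma exists_wt [Fintype G] {g : G} (hg : addOrderOf g = Fintype.card G) :
    ∃ wt : G → ℕ, (∀ x, wt x • g = x ∧ 1 ≤ wt x) ∧
      ∀ k, 1 ≤ k → k ≤ Fintype.card G → wt (k • g) = k := by
  classical
  have hinj : Set.InjOn (fun k : ℕ => k • g) (Finset.Icc 1 (Fintype.card G)) := by
    intro i hi j hj hij
    simp only [coe_Icc, Set.mem_Icc] at hi hj
    have h1 := (nsmul_eq_nsmul_iff_modEq (x := g)).mp hij
    rw [hg] at h1
    rcases hi.2.lt_or_eq with hi' | hi'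
    · rcases hj.2.lt_or_eq with hj' | hj'
      · unfold Nat.ModEq at h1
        rwa [Nat.mod_eq_of_lt hi', Nat.mod_eq_of_lt hj'] at h1
      · unfold Nat.ModEq at h1
        rw [Nat.mod_eq_of_lt hi', hj', Nat.mod_self] at h1
        omega
    · rcases hj.2.lt_or_eq with hj' | hj'
      · unfold Nat.ModEq at h1
        rw [Nat.mod_eq_of_lt hj', hi', Nat.mod_self] at h1
        omega
      · omega
  have hsurj : ∀ x : G, ∃ k ∈ Finset.Icc 1 (Fintype.card G), k • g = x := by
    have h1 : (Finset.Icc 1 (Fintype.card G)).image (fun k : ℕ => k • g) = univ := by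
      rw [← Finset.card_eq_iff_eq_univ, card_image_of_injOn hinj]
      simp
    intro x
    have := mem_univ x
    rw [← h1, mem_image] at this
    exact this
  choose wt hwt using hsurj
  refine ⟨wt, fun x => ⟨(hwt x).2, (mem_Icc.mp (hwt x).1).1⟩, ?_⟩
  intro k hk1 hk2
  exact hinj (by exact_mod_cast (hwt (k • g)).1) (by simp [hk1, hk2]) (hwt (k • g)).2

lemma Idx.wt_sum [Fintype G] {g : G} {U : Multiset G} (h : Idx g U) (wt : G → ℕ)
    (hwt : ∀ k, 1 ≤ k → k ≤ Fintype.card G → wt (k • g) = k) :
    (U.map wt).sum = Fintype.card G := by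
  obtain ⟨M, rfl, hM1, hMs⟩ := h
  rw [Multiset.map_map]
  have : M.map (wt ∘ fun k => k • g) = M := by
    conv_rhs => rw [← Multiset.map_id M]
    apply Multiset.map_congr rfl
    intro k hk
    have hle : k ≤ M.sum := Multiset.le_sum_of_mem hk
    simp only [Function.comp_apply, id]
    exact hwt k (hM1 k hk) (by omega)
  rw [this, hMs]

lemma sum_eq_wt_smul {g : G} {wt : G → ℕ} (hwt : ∀ x, wt x • g = x) (X : Multiset G) :
    X.sum = (X.map wt).sum • g := by
  induction X using Multiset.induction with
  | empty => simp
  | cons a X ih => rw [Multiset.map_cons, Multiset.sum_cons, Multiset.sum_cons, add_nsmul, hwt, ih]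

lemma card_le_wt {wt : G → ℕ} (hwt : ∀ x, 1 ≤ wt x) (X : Multiset G) :
    Multiset.card X ≤ (X.map wt).sum := by
  induction X using Multiset.induction with
  | empty => simp
  | cons a X ih =>
    rw [Multiset.map_cons, Multiset.sum_cons, Multiset.card_cons]
    have := hwt a
    omega

end Pool.Agent.Lib.MP_057dff_co
end

section

set_option autoImplicit false
set_option linter.unusedSectionVars false
set_option linter.unusedVariables false

/-! The key estimate for two opposite generators. -/

namespace Pool.Agent.Lib.MP_057dff_co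

open Finset

variable {G : Type*} [AddCommGroup G]

/-- Triples of multisets. -/
abbrev Tr (G : Type*) := Multiset G × Multiset G × Multiset G

lemma sum_map_sum {α β : Type*} (P : Multiset α) (f : α → Multiset β) (w : β → ℕ) :
    ((P.map f).sum.map w).sum = (P.map (fun t => ((f t).map w).sum)).sum := by
  induction P using Multiset.induction with
  | empty => simp
  | cons a P ih => simp only [Multiset.map_cons, Multiset.sum_cons, Multiset.map_add,
      Multiset.sum_add, ih]

lemma card_map_sum {α β : Type*} (P : Multiset α) (f : α → Multiset β) :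
    Multiset.card (P.map f).sum = (P.map (fun t => Multiset.card (f t))).sum := by
  induction P using Multiset.induction with
  | empty => simp
  | cons a P ih => simp only [Multiset.map_cons, Multiset.sum_cons, Multiset.card_add, ih]

lemma sum_sum_smul {α : Type*} (P : Multiset α) (f : α → Multiset G) (c : α → ℤ) (g : G)
    (h : ∀ t ∈ P, (f t).sum = c t • g) : ((P.map f).sum).sum = (P.map c).sum • g := by
  induction P using Multiset.induction with
  | empty => simp
  | cons a P ih =>
    have := ih (fun t ht => h t (by simp [ht]))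
    simp only [Multiset.map_cons, Multiset.sum_cons, Multiset.sum_add, this, add_zsmul]
    rw [h a (by simp)]

lemma sum_le_sum_of {α : Type*} (P : Multiset α) (f g : α → ℕ) (h : ∀ t ∈ P, f t ≤ g t) :
    (P.map f).sum ≤ (P.map g).sum := by
  induction P using Multiset.induction with
  | empty => simp
  | cons a P ih =>
    have := ih (fun t ht => h t (by simp [ht]))
    have h2 := h a (by simp)
    simp only [Multiset.map_cons, Multiset.sum_cons]
    omega

lemma card_mul_le_sum {α : Type*} (P : Multiset α) (k : ℕ) (g : α → ℕ) (h : ∀ t ∈ P, k ≤ g t) :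
    k * Multiset.card P ≤ (P.map g).sum := by
  induction P using Multiset.induction with
  | empty => simp
  | cons a P ih =>
    have := ih (fun t ht => h t (by simp [ht]))
    have h2 := h a (by simp)
    simp only [Multiset.map_cons, Multiset.sum_cons, Multiset.card_cons, mul_add, mul_one]
    omega

lemma map_add3 {α : Type*} (P : Multiset α) (f g h : α → ℕ) :
    (P.map (fun t => f t + g t + h t)).sum = (P.map f).sum + (P.map g).sum + (P.map h).sum := by
  induction P using Multiset.induction with
  | empty => simp
  | cons a P ih =>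
    simp only [Multiset.map_cons, Multiset.sum_cons, ih]
    omega

theorem bound_opposite [Fintype G] {g : G} (hg : addOrderOf g = Fintype.card G)
    {U V W : Multiset G} (hU : Atom U) (hV : Atom V) (hW : Atom W) (hgU : Idx g U)
    (hgV : Idx (-g) V) (h0 : (0 : G) ∉ U + V + W) (l : List (Multiset G))
    (hl : ∀ S ∈ l, Atom S) (hsum : l.sum = U + V + W) :
    l.length ≤ Fintype.card G + 1 := by
  classical
  obtain ⟨l', hl', h1, h2, h3⟩ := refine3 l U V W hsum
  obtain ⟨wt, hwt, hwt'⟩ := exists_wt hg
  obtain ⟨wu, hwu, hwu'⟩ := exists_wt (g := -g) (by rw [addOrderOf_neg, hg])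
  have hsU := hgU.wt_sum wt hwt'
  have hsV := hgV.wt_sum wu hwu'
  have hcU := hU.card_le
  have hcV := hV.card_le
  have hcW := hW.card_le
  set n := Fintype.card G with hn
  obtain ⟨P, hP⟩ : ∃ P : Multiset (Tr G), P = (l' : Multiset (Tr G)) := ⟨_, rfl⟩
  have hPU : (P.map (fun t => t.1)).sum = U := by rw [hP]; simpa using h1
  have hPV : (P.map (fun t => t.2.1)).sum = V := by rw [hP]; simpa using h2
  have hPW : (P.map (fun t => t.2.2)).sum = W := by rw [hP]; simpa using h3
  have hcard : Multiset.card P = l.length := by
    rw [hP, Multiset.coe_card, ← hl', List.length_map]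
  have hPatom : ∀ t ∈ P, Atom (t.1 + t.2.1 + t.2.2) := by
    intro t ht
    apply hl
    rw [← hl', List.mem_map]
    rw [hP, Multiset.mem_coe] at ht
    exact ⟨t, ht, rfl⟩
  have hP2 : ∀ t ∈ P, 2 ≤ Multiset.card t.1 + Multiset.card t.2.1 + Multiset.card t.2.2 := by
    intro t ht
    have := (hPatom t ht).card_ge (by
      intro h00
      apply h0
      rw [← hPU, ← hPV, ← hPW]
      obtain ⟨P', rfl⟩ := Multiset.exists_cons_of_mem ht
      simp only [Multiset.map_cons, Multiset.sum_cons, Multiset.mem_add] at h00 ⊢
      tauto)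
    simpa using this
  clear h1 h2 h3 hl' hP
  rw [← hcard]
  clear hcard hsum hl
  have hsumA : (P.map (fun t => (t.1.map wt).sum)).sum = n := by
    rw [← sum_map_sum P (fun t => t.1) wt, hPU, hsU]
  have hsumB : (P.map (fun t => (t.2.1.map wu).sum)).sum = n := by
    rw [← sum_map_sum P (fun t => t.2.1) wu, hPV, hsV]
  have hcardA : (P.map (fun t => Multiset.card t.1)).sum = Multiset.card U := by
    rw [← card_map_sum P (fun t => t.1), hPU]
  have hcardB : (P.map (fun t => Multiset.card t.2.1)).sum = Multiset.card V := by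
    rw [← card_map_sum P (fun t => t.2.1), hPV]
  have hcardC : (P.map (fun t => Multiset.card t.2.2)).sum = Multiset.card W := by
    rw [← card_map_sum P (fun t => t.2.2), hPW]
  have hneg : ∀ Y : Multiset G, Y.sum = -((Y.map wu).sum • g) := by
    intro Y
    rw [sum_eq_wt_smul (g := -g) (fun x => (hwu x).1) Y, smul_neg]
  have hc : ∀ t ∈ P, t.2.2.sum =
      (((t.2.1.map wu).sum : ℤ) - ((t.1.map wt).sum : ℤ)) • g := by
    intro t ht
    have h1 := (hPatom t ht).2.1
    rw [Multiset.sum_add, Multiset.sum_add, sum_eq_wt_smul (fun x => (hwt x).1) t.1,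
      hneg t.2.1] at h1
    rw [sub_zsmul, natCast_zsmul, natCast_zsmul]
    have h2 : t.2.2.sum = -((t.1.map wt).sum • g + -((t.2.1.map wu).sum • g)) :=
      eq_neg_of_add_eq_zero_right h1
    rw [h2]; abel
  by_cases hexc : ∃ t ∈ P, t.2.2 = 0 ∧ (t.1.map wt).sum ≠ (t.2.1.map wu).sum
  · obtain ⟨t, ht, hZ, hne⟩ := hexc
    obtain ⟨P', rfl⟩ := Multiset.exists_cons_of_mem ht
    have h5 := hc t ht
    rw [hZ, Multiset.sum_zero, sub_zsmul, natCast_zsmul, natCast_zsmul] at h5
    have h6 : (t.2.1.map wu).sum • g = (t.1.map wt).sum • g :=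
      sub_eq_zero.mp (by rw [sub_eq_add_neg]; exact h5.symm)
    simp only [Multiset.map_cons, Multiset.sum_cons] at hsumA hsumB hcardA hcardB hcardC
    have h7 := card_mul_le_sum P' 2
      (fun t => Multiset.card t.1 + Multiset.card t.2.1 + Multiset.card t.2.2)
      (fun t ht => hP2 t (by simp [ht]))
    rw [map_add3 P'] at h7
    have h8 : (P'.map (fun t => Multiset.card t.1)).sum ≤
        (P'.map (fun t => (t.1.map wt).sum)).sum :=
      sum_le_sum_of P' _ _ (fun t ht => card_le_wt (fun x => (hwt x).2) t.1)
    have h9 : (P'.map (fun t => Multiset.card t.2.1)).sum ≤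
        (P'.map (fun t => (t.2.1.map wu).sum)).sum :=
      sum_le_sum_of P' _ _ (fun t ht => card_le_wt (fun x => (hwu x).2) t.2.1)
    rw [Multiset.card_cons]
    have h10 : (t.2.1.map wu).sum ≤ n := by omega
    have h11 : (t.1.map wt).sum ≤ n := by omega
    rw [nsmul_eq_nsmul_iff_modEq, hg] at h6
    unfold Nat.ModEq at h6
    rcases h10.lt_or_eq with h10' | h10'
    · rcases h11.lt_or_eq with h11' | h11'
      · rw [Nat.mod_eq_of_lt h10', Nat.mod_eq_of_lt h11'] at h6
        omega
      · omega
    · omega
  · push Not at hexc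
    set P0 := P.filter (fun t => t.2.2 = 0) with hP0
    set P1 := P.filter (fun t => ¬ t.2.2 = 0) with hP1
    have hPP : P0 + P1 = P := Multiset.filter_add_not _ P
    have hP0P : P0 ≤ P := Multiset.filter_le _ _
    have hP1P : P1 ≤ P := Multiset.filter_le _ _
    have hcardP : Multiset.card P = Multiset.card P0 + Multiset.card P1 := by
      rw [← hPP, Multiset.card_add]
    have hA : (P0.map (fun t => (t.1.map wt).sum)).sum + (P1.map (fun t => (t.1.map wt).sum)).sum
        = n := by
      rw [← Multiset.sum_add, ← Multiset.map_add, hPP, hsumA]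
    have hB : (P0.map (fun t => (t.2.1.map wu).sum)).sum +
        (P1.map (fun t => (t.2.1.map wu).sum)).sum = n := by
      rw [← Multiset.sum_add, ← Multiset.map_add, hPP, hsumB]
    have hAB0 : (P0.map (fun t => (t.1.map wt).sum)).sum =
        (P0.map (fun t => (t.2.1.map wu).sum)).sum := by
      congr 1
      apply Multiset.map_congr rfl
      intro t ht
      rw [hP0, Multiset.mem_filter] at ht
      exact hexc t ht.1 ht.2
    have h0A : Multiset.card P0 ≤ (P0.map (fun t => (t.1.map wt).sum)).sum := by
      have := card_mul_le_sum P0 1 (fun t => (t.1.map wt).sum) (by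
        intro t ht
        rw [hP0, Multiset.mem_filter] at ht
        have h5 := hexc t ht.1 ht.2
        have h6 := hP2 t ht.1
        have h7 := card_le_wt (fun x => (hwt x).2) t.1
        have h8 := card_le_wt (fun x => (hwu x).2) t.2.1
        rw [ht.2, Multiset.card_zero] at h6
        show 1 ≤ (t.1.map wt).sum
        omega)
      omega
    have hAB1 : (P1.map (fun t => (t.1.map wt).sum)).sum =
        (P1.map (fun t => (t.2.1.map wu).sum)).sum := by omega
    have hc0 : (P1.map (fun t => (((t.2.1.map wu).sum : ℤ) - ((t.1.map wt).sum : ℤ)))).sum = 0 := by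
      rw [Multiset.sum_map_sub]
      have h5 : ∀ f : Tr G → ℕ, (P1.map (fun t => ((f t : ℕ) : ℤ))).sum = ((P1.map f).sum : ℕ) := by
        intro f
        rw [Nat.cast_multiset_sum, Multiset.map_map]
        rfl
      rw [h5, h5, hAB1]; simp
    have hmin : ∀ t ≤ P1.map (fun t => (((t.2.1.map wu).sum : ℤ) - ((t.1.map wt).sum : ℤ))),
        t ≠ 0 → t.sum = 0 →
        t = P1.map (fun t => (((t.2.1.map wu).sum : ℤ) - ((t.1.map wt).sum : ℤ))) := by
      intro t ht ht0 hts
      obtain ⟨s', hs', rfl⟩ := exists_le_of_le_map _ P1 t ht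
      obtain ⟨r1, hr1⟩ := Multiset.le_iff_exists_add.mp hs'
      have hs'P : ∀ x ∈ s', x ∈ P := fun x hx => Multiset.mem_of_le (hs'.trans hP1P) hx
      have hZ0 : ((s'.map (fun t : Tr G => t.2.2)).sum).sum = 0 := by
        rw [sum_sum_smul s' (fun t : Tr G => t.2.2)
          (fun t : Tr G => (((t.2.1.map wu).sum : ℤ) - ((t.1.map wt).sum : ℤ))) g
          (fun t ht => hc t (hs'P t ht)), hts, zero_smul]
      have hWs : W = (s'.map (fun t : Tr G => t.2.2)).sum +
          ((r1.map (fun t : Tr G => t.2.2)).sum + (P0.map (fun t => t.2.2)).sum) := by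
        rw [← hPW, ← hPP, hr1]
        simp only [Multiset.map_add, Multiset.sum_add]
        abel
      have hZne : (s'.map (fun t : Tr G => t.2.2)).sum ≠ 0 := by
        intro h
        have hs'0 : s' ≠ 0 := by
          rintro rfl; simp at ht0
        obtain ⟨x, hx⟩ := Multiset.exists_mem_of_ne_zero hs'0
        have hx1 : x ∈ P1 := Multiset.mem_of_le hs' hx
        rw [hP1, Multiset.mem_filter] at hx1
        apply hx1.2
        rw [← Multiset.card_eq_zero]
        have h5 := card_map_sum s' (fun t => t.2.2)
        rw [h, Multiset.card_zero] at h5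
        obtain ⟨s'', rfl⟩ := Multiset.exists_cons_of_mem hx
        rw [Multiset.map_cons, Multiset.sum_cons] at h5
        omega
      have hZW := hW.2.2 _ (by rw [hWs]; exact Multiset.le_add_right _ _) hZne hZ0
      have hr0 : (r1.map (fun t : Tr G => t.2.2)).sum = 0 := by
        rw [hZW] at hWs
        have h5 : (r1.map (fun t : Tr G => t.2.2)).sum + (P0.map (fun t => t.2.2)).sum = 0 := by
          have : W + 0 = W + ((r1.map (fun t : Tr G => t.2.2)).sum + (P0.map (fun t => t.2.2)).sum) := by
            rw [add_zero]; exact hWs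
          exact (add_left_cancel this).symm
        exact (add_eq_zero.mp h5).1
      have hr10 : r1 = 0 := by
        by_contra hne
        obtain ⟨x, hx⟩ := Multiset.exists_mem_of_ne_zero hne
        have hx1 : x ∈ P1 := by rw [hr1]; simp [hx]
        rw [hP1, Multiset.mem_filter] at hx1
        apply hx1.2
        rw [← Multiset.card_eq_zero]
        have h5 := card_map_sum r1 (fun t => t.2.2)
        rw [hr0, Multiset.card_zero] at h5
        obtain ⟨s'', rfl⟩ := Multiset.exists_cons_of_mem hx
        rw [Multiset.map_cons, Multiset.sum_cons] at h5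
        omega
      rw [hr1, hr10, add_zero]
    have hlam := lambert _ _ rfl hc0 hmin
    rw [Multiset.card_map, Multiset.map_map] at hlam
    have h6 : (P1.map ((fun c : ℤ => (-c).toNat) ∘
        (fun t => (((t.2.1.map wu).sum : ℤ) - ((t.1.map wt).sum : ℤ))))).sum ≤
        (P1.map (fun t => (t.1.map wt).sum)).sum := by
      apply sum_le_sum_of
      intro t _
      simp only [Function.comp_apply]
      omega
    omega

end Pool.Agent.Lib.MP_057dff_co
end

section

set_option autoImplicit false
set_option linter.unusedSectionVars false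
set_option linter.unusedVariables false

/-! The upper bound for cyclic groups and for the Klein four group. -/

namespace Pool.Agent.Lib.MP_057dff_co

open Finset

variable {G : Type*} [AddCommGroup G]

lemma two_mul_length_le (l : List (Multiset G)) (hl : ∀ S ∈ l, Atom S) [DecidableEq G] :
    2 * l.length ≤ Multiset.card l.sum + Multiset.count 0 l.sum := by
  induction l with
  | nil => simp
  | cons S l ih =>
    have h1 := ih (fun T hT => hl T (by simp [hT]))
    have hS := hl S (by simp)
    rw [List.length_cons, List.sum_cons, Multiset.card_add, Multiset.count_add]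
    by_cases h0 : (0 : G) ∈ S
    · rw [hS.eq_zero_of_mem h0]
      simp only [Multiset.card_singleton, Multiset.count_singleton_self]
      omega
    · have := hS.card_ge h0
      omega

lemma three_mul_length_le {α : Type*} (P : Multiset α) (f : α → ℕ) (h : 3 * Multiset.card P > (P.map f).sum) :
    ∃ t ∈ P, f t ≤ 2 := by
  by_contra hcon
  push Not at hcon
  have := card_mul_le_sum P 3 f (fun t ht => hcon t ht)
  omega

/-- The function that marks the exceptional terms of an atom. -/
lemma exists_mark [Fintype G] {U : Multiset G} (hU : Atom U) :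
    ∃ a : G → ℕ, (∀ u v, a u = 0 → a v = 0 → u = v) ∧
      (∀ u, a u = 0 → addOrderOf u = Fintype.card G ∧ Idx u U) ∧
      ((U.map a).sum + Multiset.card U ≤ Fintype.card G ∨
        (2 * Multiset.card U ≤ Fintype.card G + 2 ∧
          (U.map a).sum + Multiset.card U ≤ Fintype.card G + 2)) := by
  classical
  by_cases hlong : Fintype.card G + 3 ≤ 2 * Multiset.card U
  · obtain ⟨g, hg, hI⟩ := exists_idx_of_long hU hlong
    refine ⟨fun x => if x = g then 0 else 1, ?_, ?_, ?_⟩
    · intro u v hu hv
      by_cases h1 : u = g
      · by_cases h2 : v = g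
        · rw [h1, h2]
        · simp [h2] at hv
      · simp [h1] at hu
    · intro u hu
      by_cases h1 : u = g
      · rw [h1]; exact ⟨hg, hI⟩
      · simp [h1] at hu
    · left
      obtain ⟨M, rfl, hM1, hMs⟩ := hI
      have h1 := sum_pred_le M hM1
      rw [Multiset.map_map, Multiset.card_map]
      have h2 : (M.map ((fun x => if x = g then 0 else 1) ∘ fun k => k • g)).sum ≤
          (M.map (fun k => if k = 1 then 0 else 1)).sum := by
        apply sum_le_sum_of
        intro k _
        simp only [Function.comp_apply]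
        by_cases hk : k = 1
        · rw [hk]; simp
        · simp only [hk, if_false]
          split_ifs <;> omega
      omega
  · refine ⟨fun _ => 1, ?_, ?_, ?_⟩
    · intro u v hu; simp at hu
    · intro u hu; simp at hu
    · right
      rw [Multiset.map_const', Multiset.sum_replicate]
      simp only [smul_eq_mul, mul_one]
      omega

theorem cyclic_bound_nozero [Fintype G] (h3 : 3 ≤ Fintype.card G) {U V W : Multiset G}
    (hU : Atom U) (hV : Atom V) (hW : Atom W)
    (h0 : (0 : G) ∉ U + V + W) (l : List (Multiset G))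
    (hl : ∀ S ∈ l, Atom S) (hsum : l.sum = U + V + W) :
    l.length ≤ Fintype.card G + 1 := by
  classical
  by_contra hcon
  push Not at hcon
  obtain ⟨a, ha1, ha2, ha3⟩ := exists_mark hU
  obtain ⟨b, hb1, hb2, hb3⟩ := exists_mark hV
  obtain ⟨c, hc1, hc2, hc3⟩ := exists_mark hW
  have hcU := hU.card_le
  have hcV := hV.card_le
  have hcW := hW.card_le
  have hlen := two_mul_length_le l hl
  rw [hsum, Multiset.count_eq_zero_of_notMem h0, Multiset.card_add, Multiset.card_add] at hlen
  obtain ⟨l', hl', h1, h2, h3⟩ := refine3 l U V W hsum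
  obtain ⟨P, hP⟩ : ∃ P : Multiset (Tr G), P = (l' : Multiset (Tr G)) := ⟨_, rfl⟩
  have hPU : (P.map (fun t => t.1)).sum = U := by rw [hP]; simpa using h1
  have hPV : (P.map (fun t => t.2.1)).sum = V := by rw [hP]; simpa using h2
  have hPW : (P.map (fun t => t.2.2)).sum = W := by rw [hP]; simpa using h3
  have hcard : Multiset.card P = l.length := by
    rw [hP, Multiset.coe_card, ← hl', List.length_map]
  have hPatom : ∀ t ∈ P, Atom (t.1 + t.2.1 + t.2.2) := by
    intro t ht
    apply hl
    rw [← hl', List.mem_map]
    rw [hP, Multiset.mem_coe] at ht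
    exact ⟨t, ht, rfl⟩
  have hP2 : ∀ t ∈ P, 2 ≤ Multiset.card t.1 + Multiset.card t.2.1 + Multiset.card t.2.2 := by
    intro t ht
    have := (hPatom t ht).card_ge (by
      intro h00
      apply h0
      rw [← hPU, ← hPV, ← hPW]
      obtain ⟨P', rfl⟩ := Multiset.exists_cons_of_mem ht
      simp only [Multiset.map_cons, Multiset.sum_cons, Multiset.mem_add] at h00 ⊢
      tauto)
    simpa using this
  have hcardA : (P.map (fun t => Multiset.card t.1)).sum = Multiset.card U := by
    rw [← card_map_sum P (fun t => t.1), hPU]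
  have hcardB : (P.map (fun t => Multiset.card t.2.1)).sum = Multiset.card V := by
    rw [← card_map_sum P (fun t => t.2.1), hPV]
  have hcardC : (P.map (fun t => Multiset.card t.2.2)).sum = Multiset.card W := by
    rw [← card_map_sum P (fun t => t.2.2), hPW]
  have hmA : (P.map (fun t => (t.1.map a).sum)).sum = (U.map a).sum := by
    rw [← sum_map_sum P (fun t => t.1) a, hPU]
  have hmB : (P.map (fun t => (t.2.1.map b).sum)).sum = (V.map b).sum := by
    rw [← sum_map_sum P (fun t => t.2.1) b, hPV]
  have hmC : (P.map (fun t => (t.2.2.map c).sum)).sum = (W.map c).sum := by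
    rw [← sum_map_sum P (fun t => t.2.2) c, hPW]
  obtain ⟨t, ht, hle⟩ := three_mul_length_le P
    (fun t => (Multiset.card t.1 + Multiset.card t.2.1 + Multiset.card t.2.2) + 
      ((t.1.map a).sum + (t.2.1.map b).sum + (t.2.2.map c).sum) + 0) (by
      rw [map_add3 P (fun t => (Multiset.card t.1 + Multiset.card t.2.1 + Multiset.card t.2.2))
        (fun t => ((t.1.map a).sum + (t.2.1.map b).sum + (t.2.2.map c).sum)) (fun _ => 0),
        map_add3, map_add3, hcardA, hcardB, hcardC, hmA, hmB, hmC]
      simp only [Multiset.map_const', Multiset.sum_replicate, smul_zero]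
      omega)
  have h2 := hP2 t ht
  have hcard2 : Multiset.card (t.1 + t.2.1 + t.2.2) = 2 := by
    rw [Multiset.card_add, Multiset.card_add]; omega
  obtain ⟨u, v, huv⟩ := Multiset.card_eq_two.mp hcard2
  have huv0 : v = -u := by
    have := (hPatom t ht).2.1
    rw [huv] at this
    simp at this
    exact (neg_eq_of_add_eq_zero_right this).symm
  have hsuma : (t.1.map a).sum = 0 := by omega
  have hsumb : (t.2.1.map b).sum = 0 := by omega
  have hsumc : (t.2.2.map c).sum = 0 := by omega
  have hza : ∀ x ∈ t.1, a x = 0 := fun x hx =>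
    (Multiset.sum_eq_zero_iff.mp hsuma) _ (Multiset.mem_map_of_mem a hx)
  have hzb : ∀ x ∈ t.2.1, b x = 0 := fun x hx =>
    (Multiset.sum_eq_zero_iff.mp hsumb) _ (Multiset.mem_map_of_mem b hx)
  have hzc : ∀ x ∈ t.2.2, c x = 0 := fun x hx =>
    (Multiset.sum_eq_zero_iff.mp hsumc) _ (Multiset.mem_map_of_mem c hx)
  have hall : ∀ x ∈ t.1 + t.2.1 + t.2.2, a x = 0 ∨ b x = 0 ∨ c x = 0 := by
    intro x hx
    rw [Multiset.mem_add, Multiset.mem_add] at hx
    rcases hx with (hx | hx) | hx
    · left; exact hza x hx
    · right; left; exact hzb x hx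
    · right; right; exact hzc x hx
  have hu := hall u (by rw [huv]; simp)
  have hv := hall v (by rw [huv]; simp)
  have hself : ∀ x : G, addOrderOf x = Fintype.card G → x ≠ -x := by
    intro x hx hxx
    have h5 : 2 • x = 0 := by
      rw [two_nsmul]
      nth_rewrite 2 [hxx]
      simp
    have h6 := addOrderOf_dvd_of_nsmul_eq_zero h5
    have h7 := Nat.le_of_dvd (by norm_num) h6
    omega
  have key : ∀ (U V W : Multiset G), Atom U → Atom V → Atom W → (0 : G) ∉ U + V + W → 
      l.sum = U + V + W → ∀ u v : G, v = -u → addOrderOf u = Fintype.card G → Idx u U → Idx v V →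
      False := by
    intro U V W hU hV hW h0 hsum u v huv hu hIu hIv
    rw [huv] at hIv
    have := bound_opposite hu hU hV hW hIu hIv h0 l hl hsum
    omega
  have huv0' : u = -v := by rw [huv0]; simp
  have p1 : U + W + V = U + V + W := by abel
  have p2 : V + U + W = U + V + W := by abel
  have p3 : V + W + U = U + V + W := by abel
  have p4 : W + U + V = U + V + W := by abel
  have p5 : W + V + U = U + V + W := by abel
  rcases hu with hu | hu | hu <;> rcases hv with hv | hv | hv
  · have h5 := ha1 u v hu hv
    exact hself u (ha2 u hu).1 (by rw [← huv0]; exact h5)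
  · exact key U V W hU hV hW h0 hsum u v huv0 (ha2 u hu).1 (ha2 u hu).2 (hb2 v hv).2
  · exact key U W V hU hW hV (by rw [p1]; exact h0) (by rw [p1]; exact hsum) u v huv0
      (ha2 u hu).1 (ha2 u hu).2 (hc2 v hv).2
  · exact key V U W hV hU hW (by rw [p2]; exact h0) (by rw [p2]; exact hsum) u v huv0
      (hb2 u hu).1 (hb2 u hu).2 (ha2 v hv).2
  · have h5 := hb1 u v hu hv
    exact hself u (hb2 u hu).1 (by rw [← huv0]; exact h5)
  · exact key V W U hV hW hU (by rw [p3]; exact h0) (by rw [p3]; exact hsum) u v huv0
      (hb2 u hu).1 (hb2 u hu).2 (hc2 v hv).2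
  · exact key W U V hW hU hV (by rw [p4]; exact h0) (by rw [p4]; exact hsum) u v huv0
      (hc2 u hu).1 (hc2 u hu).2 (ha2 v hv).2
  · exact key W V U hW hV hU (by rw [p5]; exact h0) (by rw [p5]; exact hsum) u v huv0
      (hc2 u hu).1 (hc2 u hu).2 (hb2 v hv).2
  · have h5 := hc1 u v hu hv
    exact hself u (hc2 u hu).1 (by rw [← huv0]; exact h5)

/-- The case where zero occurs. -/
theorem bound_zero {D : ℕ} (hD : 2 ≤ D) (hmax : ∀ S : Multiset G, Atom S → Multiset.card S ≤ D)
    {U V W : Multiset G} (hU : Atom U) (hV : Atom V) (hW : Atom W)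
    (h0 : (0 : G) ∈ U + V + W) (l : List (Multiset G))
    (hl : ∀ S ∈ l, Atom S) (hsum : l.sum = U + V + W) :
    l.length ≤ D + 1 := by
  classical
  have hlen := two_mul_length_le l hl
  rw [hsum, Multiset.count_add, Multiset.count_add, Multiset.card_add, Multiset.card_add] at hlen
  have h1 : ∀ S : Multiset G, Atom S → Multiset.card S + Multiset.count 0 S ≤ D := by
    intro S hS
    by_cases h : (0 : G) ∈ S
    · rw [hS.eq_zero_of_mem h]; simpa using hD
    · rw [Multiset.count_eq_zero_of_notMem h]
      simpa using hmax S hS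
  have h2 : ∀ S : Multiset G, Atom S → (0 : G) ∈ S →
      Multiset.card S + Multiset.count 0 S = 2 := by
    intro S hS h
    rw [hS.eq_zero_of_mem h]; simp
  have hU1 := h1 U hU
  have hV1 := h1 V hV
  have hW1 := h1 W hW
  rw [Multiset.mem_add, Multiset.mem_add] at h0
  rcases h0 with (h | h) | h
  · have := h2 U hU h
    omega
  · have := h2 V hV h
    omega
  · have := h2 W hW h
    omega

lemma fac_three {A : Multiset G} (h : Fac A 3) : ∃ U V W, Atom U ∧ Atom V ∧ Atom W ∧
    A = U + V + W := by
  obtain ⟨l, hl, hat, hsum⟩ := h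
  match l, hl, hat, hsum with
  | [U, V, W], _, hat, hsum =>
    refine ⟨U, V, W, hat _ (by simp), hat _ (by simp), hat _ (by simp), ?_⟩
    rw [← hsum]
    simp [add_assoc]

theorem cyclic_bound [Fintype G] (h3 : 3 ≤ Fintype.card G) (A : Multiset G) (m : ℕ)
    (h1 : Fac A 3) (h2 : Fac A m) : m ≤ Fintype.card G + 1 := by
  obtain ⟨U, V, W, hU, hV, hW, rfl⟩ := fac_three h1
  obtain ⟨l, rfl, hat, hsum⟩ := h2
  by_cases h0 : (0 : G) ∈ U + V + W
  · exact bound_zero (by omega) (fun S hS => hS.card_le) hU hV hW h0 l hat hsum
  · exact cyclic_bound_nozero h3 hU hV hW h0 l hat hsum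

theorem small_bound (hmax : ∀ S : Multiset G, Atom S → Multiset.card S ≤ 3)
    (A : Multiset G) (m : ℕ) (h1 : Fac A 3) (h2 : Fac A m) : m ≤ 3 + 1 := by
  classical
  obtain ⟨U, V, W, hU, hV, hW, rfl⟩ := fac_three h1
  obtain ⟨l, rfl, hat, hsum⟩ := h2
  by_cases h0 : (0 : G) ∈ U + V + W
  · exact bound_zero (by omega) hmax hU hV hW h0 l hat hsum
  · have hlen := two_mul_length_le l hat
    rw [hsum, Multiset.count_eq_zero_of_notMem h0, Multiset.card_add, Multiset.card_add] at hlen
    have h1 := hmax U hU
    have h2 := hmax V hV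
    have h3 := hmax W hW
    omega

end Pool.Agent.Lib.MP_057dff_co
end

section

set_option autoImplicit false
set_option linter.unusedSectionVars false
set_option linter.unusedVariables false

/-! The values are attained. -/

namespace Pool.Agent.Lib.MP_057dff_co

open Finset

variable {G : Type*} [AddCommGroup G]

lemma atom_zero : Atom ({0} : Multiset G) := by
  refine ⟨by simp, by simp, ?_⟩
  intro T hT h0 _
  rcases Multiset.le_singleton.mp hT with h | h
  · exact absurd h h0
  · exact h

lemma atom_replicate [Finite G] (g : G) : Atom (Multiset.replicate (addOrderOf g) g) := by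
  have hpos := addOrderOf_pos g
  refine ⟨?_, ?_, ?_⟩
  · intro h
    have := congrArg Multiset.card h
    rw [Multiset.card_replicate, Multiset.card_zero] at this
    omega
  · rw [Multiset.sum_replicate, addOrderOf_nsmul_eq_zero]
  · intro T hT h0 hs
    obtain ⟨k, hk, rfl⟩ := Multiset.le_replicate_iff.mp hT
    rw [Multiset.sum_replicate] at hs
    have hk0 : 0 < k := by
      rcases Nat.eq_zero_or_pos k with h | h
      · rw [h] at h0; simp at h0
      · exact h
    have := Nat.le_of_dvd hk0 (addOrderOf_dvd_of_nsmul_eq_zero hs)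
    have : k = addOrderOf g := by omega
    rw [this]

theorem cyclic_attained [Fintype G] (h3 : 3 ≤ Fintype.card G) (hc : IsAddCyclic G) :
    (∃ S : Multiset G, Atom S ∧ Multiset.card S = Fintype.card G) ∧
    ∃ A : Multiset G, Fac A 3 ∧ Fac A (Fintype.card G + 1) := by
  obtain ⟨g, hg⟩ := IsAddCyclic.exists_generator (α := G)
  have hord : addOrderOf g = Fintype.card G := by
    rw [addOrderOf_eq_card_of_forall_mem_zmultiples hg, Nat.card_eq_fintype_card]
  have hg0 : g ≠ 0 := by
    rintro rfl
    rw [addOrderOf_zero] at hord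
    omega
  have ha := atom_replicate g
  have hb := atom_replicate (-g)
  rw [addOrderOf_neg] at hb
  rw [hord] at ha hb
  refine ⟨⟨_, ha, by simp⟩, {0} + Multiset.replicate (Fintype.card G) g +
    Multiset.replicate (Fintype.card G) (-g), ?_, ?_⟩
  · refine ⟨[{0}, Multiset.replicate (Fintype.card G) g, Multiset.replicate (Fintype.card G) (-g)],
      rfl, ?_, by simp only [List.sum_cons, List.sum_nil, add_zero, add_assoc]⟩
    intro S hS
    simp only [List.mem_cons, List.not_mem_nil, or_false] at hS
    rcases hS with rfl | rfl | rfl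
    · exact atom_zero
    · exact ha
    · exact hb
  · refine ⟨{0} :: List.replicate (Fintype.card G) {g, -g}, by simp, ?_, ?_⟩
    · intro S hS
      rw [List.mem_cons] at hS
      rcases hS with rfl | hS
      · exact atom_zero
      · rw [List.eq_of_mem_replicate hS]
        exact atom_pair hg0
    · rw [List.sum_cons, List.sum_replicate, add_assoc]
      congr 1
      have : ({g, -g} : Multiset G) = {g} + {-g} := rfl
      rw [this, nsmul_add, Multiset.nsmul_singleton, Multiset.nsmul_singleton]

lemma card_le_three [Fintype G] (h4 : Fintype.card G = 4) (h2 : ∀ x : G, x + x = 0)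
    (S : Multiset G) (hS : Atom S) : Multiset.card S ≤ 3 := by
  classical
  by_contra hcon
  push Not at hcon
  have h0 : (0 : G) ∉ S := by
    intro h
    rw [hS.eq_zero_of_mem h] at hcon
    simp at hcon
  have hnd : S.Nodup := by
    rw [Multiset.nodup_iff_count_le_one]
    intro x
    by_contra hx
    push Not at hx
    have hle : Multiset.replicate 2 x ≤ S := Multiset.le_count_iff_replicate_le.mp hx
    have := hS.2.2 _ hle (by
      intro h
      have := congrArg Multiset.card h
      simp at this) (by rw [Multiset.sum_replicate, two_nsmul, h2])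
    rw [← this, Multiset.card_replicate] at hcon
    omega
  have hle : Multiset.card S ≤ ((univ : Finset G).erase 0).card := by
    have : (⟨S, hnd⟩ : Finset G) ⊆ (univ : Finset G).erase 0 := by
      intro x hx
      rw [mem_erase]
      refine ⟨?_, mem_univ _⟩
      rintro rfl
      exact h0 hx
    exact card_le_card this
  rw [card_erase_of_mem (mem_univ _), card_univ, h4] at hle
  omega

lemma atom_triple {a b : G} (ha : a ≠ 0) (hb : b ≠ 0) (hab : a ≠ b) (h2 : ∀ x : G, x + x = 0) :
    Atom (a ::ₘ b ::ₘ (a + b) ::ₘ 0 : Multiset G) := by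
  classical
  refine ⟨by simp, ?_, ?_⟩
  · simp only [Multiset.sum_cons, Multiset.sum_zero, add_zero]
    have : a + (b + (a + b)) = (a + a) + (b + b) := by abel
    rw [this, h2, h2, add_zero]
  · intro T hT h0 hs
    have hab' : a + b ≠ 0 := by
      intro h
      apply hab
      have h5 := h2 b
      exact add_right_cancel (h.trans h5.symm)
    have hmem := Multiset.mem_powerset.mpr hT
    simp only [Multiset.powerset_cons, Multiset.powerset_zero, Multiset.map_singleton,
      Multiset.map_add, Multiset.mem_add, Multiset.mem_singleton] at hmem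
    have e1 : a + (a + b) = b := by rw [← add_assoc, h2, zero_add]
    have e2 : b + (a + b) = a := by
      have : b + (a + b) = a + (b + b) := by abel
      rw [this, h2, add_zero]
    rcases hmem with ((h | h) | (h | h)) | ((h | h) | (h | h))
    · exact absurd h h0
    · rw [h] at hs; simp at hs; exact absurd hs hab'
    · rw [h] at hs; simp at hs; exact absurd hs hb
    · rw [h] at hs; simp only [Multiset.sum_cons, Multiset.sum_zero, add_zero, e2] at hs
      exact absurd hs ha
    · rw [h] at hs; simp at hs; exact absurd hs ha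
    · rw [h] at hs; simp only [Multiset.sum_cons, Multiset.sum_zero, add_zero, e1] at hs
      exact absurd hs hb
    · rw [h] at hs; simp only [Multiset.sum_cons, Multiset.sum_zero, add_zero] at hs
      exact absurd hs hab'
    · exact h

theorem klein_attained (e : G ≃+ (ZMod 2 × ZMod 2)) :
    (∃ S : Multiset G, Atom S ∧ Multiset.card S = 3) ∧
    ∃ A : Multiset G, Fac A 3 ∧ Fac A (3 + 1) := by
  have h2 : ∀ x : G, x + x = 0 := by
    intro x
    apply e.injective
    rw [map_add, map_zero]
    generalize e x = y
    revert y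
    decide
  obtain ⟨a, ha⟩ : ∃ a : G, e a = (1, 0) := e.surjective _
  obtain ⟨b, hb⟩ : ∃ b : G, e b = (0, 1) := e.surjective _
  have ha0 : a ≠ 0 := by
    rintro rfl
    rw [map_zero] at ha
    revert ha; decide
  have hb0 : b ≠ 0 := by
    rintro rfl
    rw [map_zero] at hb
    revert hb; decide
  have hab : a ≠ b := by
    rintro rfl
    rw [ha] at hb
    revert hb; decide
  have hab0 : a + b ≠ 0 := by
    intro h
    have := congrArg e h
    rw [map_add, ha, hb, map_zero] at this
    revert this; decide
  have hneg : ∀ x : G, -x = x := fun x => neg_eq_of_add_eq_zero_right (h2 x)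
  have hU := atom_triple ha0 hb0 hab h2
  have hp : ∀ x : G, x ≠ 0 → Atom ({x, x} : Multiset G) := by
    intro x hx
    have := atom_pair hx
    rwa [hneg x] at this
  refine ⟨⟨_, hU, by simp⟩, {0} + (a ::ₘ b ::ₘ (a + b) ::ₘ 0) + (a ::ₘ b ::ₘ (a + b) ::ₘ 0), ?_, ?_⟩
  · refine ⟨[{0}, (a ::ₘ b ::ₘ (a + b) ::ₘ 0), (a ::ₘ b ::ₘ (a + b) ::ₘ 0)], rfl, ?_,
      by simp only [List.sum_cons, List.sum_nil, add_zero, add_assoc]⟩
    intro S hS
    simp only [List.mem_cons, List.not_mem_nil, or_false, or_self] at hS
    rcases hS with rfl | rfl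
    · exact atom_zero
    · exact hU
  · refine ⟨[{0}, {a, a}, {b, b}, {a + b, a + b}], rfl, ?_, ?_⟩
    · intro S hS
      simp only [List.mem_cons, List.not_mem_nil, or_false] at hS
      rcases hS with rfl | rfl | rfl | rfl
      · exact atom_zero
      · exact hp a ha0
      · exact hp b hb0
      · exact hp _ hab0
    · simp only [List.sum_cons, List.sum_nil, add_zero]
      have e1 : ∀ x : G, ({x, x} : Multiset G) = {x} + {x} := fun x => rfl
      have e2 : (a ::ₘ b ::ₘ (a + b) ::ₘ 0 : Multiset G) = {a} + {b} + {a + b} := rfl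
      rw [e1, e1, e1, e2]
      abel

end Pool.Agent.Lib.MP_057dff_co
end
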